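import Mathlib

/-!
# A family of functions with isolated zeros
-/

set_option autoImplicit false

open Set Filter Topology
open scoped ContDiff InnerProductSpace

namespace Pool.Agent.W922.TB

set_option linter.unusedSectionVars false

variable {E : Type} [NormedAddCommGroup E] [InnerProductSpace ℝ E] [FiniteDimensional ℝ E]

/-- radii -/
noncomputable def rr (k : ℕ) : ℝ := (1 / 2) ^ k / 8

theorem rr_pos (k : ℕ) : 0 < rr k := by unfold rr; positivity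

/-- centres -/
noncomputable def cc (e₂ : E) (k : ℕ) : E := ((1 / 2 : ℝ) ^ k) • e₂

/-- normalised zeros -/
noncomputable def qq (e₁ : E) (i : ℕ) : E := (1 / ((i : ℝ) + 2)) • e₁

/-- normalised functions -/
noncomputable def g0 (e₁ : E) (k : ℕ) (w : E) : ℝ :=
  Real.smoothTransition (1 - ‖w‖ ^ 2) * ∏ i ∈ Finset.range (k + 1), ‖w - qq e₁ i‖ ^ 2

/-- scaled functions -/
noncomputable def gg (e₁ e₂ : E) (k : ℕ) (z : E) : ℝ := g0 e₁ k ((rr k)⁻¹ • (z - cc e₂ k))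

theorem contDiff_g0 (e₁ : E) (k : ℕ) : ContDiff ℝ ∞ (g0 e₁ k) := by
  unfold g0
  refine ContDiff.mul ?_ ?_
  · exact Real.smoothTransition.contDiff.comp (contDiff_const.sub (contDiff_norm_sq ℝ))
  · refine contDiff_prod fun i _ => ?_
    exact (contDiff_id.sub contDiff_const).norm_sq ℝ

theorem contDiff_gg (e₁ e₂ : E) (k : ℕ) : ContDiff ℝ ∞ (gg e₁ e₂ k) := by
  unfold gg
  exact (contDiff_g0 e₁ k).comp ((contDiff_id.sub contDiff_const).const_smul _)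

theorem g0_nonneg (e₁ : E) (k : ℕ) (w : E) : 0 ≤ g0 e₁ k w := by
  unfold g0
  exact mul_nonneg (Real.smoothTransition.nonneg _) (Finset.prod_nonneg fun i _ => by positivity)

theorem g0_ne_zero (e₁ : E) (k : ℕ) (w : E) :
    g0 e₁ k w ≠ 0 ↔ ‖w‖ < 1 ∧ ∀ i ≤ k, w ≠ qq e₁ i := by
  unfold g0
  rw [mul_ne_zero_iff, Finset.prod_ne_zero_iff]
  have h1 : Real.smoothTransition (1 - ‖w‖ ^ 2) ≠ 0 ↔ ‖w‖ < 1 := by
    rw [Ne, Real.smoothTransition.zero_iff_nonpos]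
    push Not
    constructor
    · intro h
      nlinarith [norm_nonneg w]
    · intro h
      nlinarith [norm_nonneg w]
  rw [h1]
  refine and_congr_right fun _ => ?_
  constructor
  · intro h i hi hw
    have := h i (Finset.mem_range.2 (Nat.lt_succ_of_le hi))
    rw [hw, sub_self] at this
    simp at this
  · intro h i hi
    have h2 := h i (Nat.lt_succ_iff.1 (Finset.mem_range.1 hi))
    exact pow_ne_zero 2 (norm_ne_zero_iff.2 (sub_ne_zero.2 h2))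

/-- the zeros -/
noncomputable def pp (e₁ e₂ : E) (k i : ℕ) : E := cc e₂ k + rr k • qq e₁ i

theorem gg_ne_zero (e₁ e₂ : E) (k : ℕ) (z : E) :
    gg e₁ e₂ k z ≠ 0 ↔ z ∈ Metric.ball (cc e₂ k) (rr k) ∧ ∀ i ≤ k, z ≠ pp e₁ e₂ k i := by
  unfold gg
  rw [g0_ne_zero]
  have hr := rr_pos k
  refine and_congr ?_ ?_
  · rw [norm_smul, Metric.mem_ball, dist_eq_norm, norm_inv, Real.norm_of_nonneg hr.le,
      inv_mul_lt_iff₀ hr, mul_one]
  · refine forall_congr' fun i => imp_congr_right fun _ => not_congr ?_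
    unfold pp
    constructor
    · intro h
      rw [← h, smul_smul, mul_inv_cancel₀ hr.ne', one_smul]
      abel
    · intro h
      rw [h, add_sub_cancel_left, smul_smul, inv_mul_cancel₀ hr.ne', one_smul]

theorem gg_nonneg (e₁ e₂ : E) (k : ℕ) (z : E) : 0 ≤ gg e₁ e₂ k z := g0_nonneg _ _ _

theorem gg_supp (e₁ e₂ : E) (k : ℕ) : HasCompactSupport (gg e₁ e₂ k) := by
  refine HasCompactSupport.intro (isCompact_closedBall (cc e₂ k) (rr k)) fun z hz => ?_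
  by_contra h
  exact hz (Metric.ball_subset_closedBall ((gg_ne_zero e₁ e₂ k z).1 h).1)

theorem gg_bound (e₁ e₂ : E) (k j : ℕ) : ∃ C : ℝ, 0 ≤ C ∧ ∀ z,
    ‖iteratedFDeriv ℝ j (gg e₁ e₂ k) z‖ ≤ C := by
  have h1 : Continuous (iteratedFDeriv ℝ j (gg e₁ e₂ k)) :=
    (contDiff_gg e₁ e₂ k).continuous_iteratedFDeriv (by exact_mod_cast le_top)
  have h2 : HasCompactSupport (iteratedFDeriv ℝ j (gg e₁ e₂ k)) :=
    (gg_supp e₁ e₂ k).iteratedFDeriv j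
  obtain ⟨C, hC⟩ := h1.bounded_above_of_compact_support h2
  exact ⟨max C 0, le_max_right _ _, fun z => (hC z).trans (le_max_left _ _)⟩

/-- bounds of the derivatives -/
noncomputable def MM (e₁ e₂ : E) (k j : ℕ) : ℝ := (gg_bound e₁ e₂ k j).choose

theorem MM_nonneg (e₁ e₂ : E) (k j : ℕ) : 0 ≤ MM e₁ e₂ k j := (gg_bound e₁ e₂ k j).choose_spec.1

theorem MM_spec (e₁ e₂ : E) (k j : ℕ) (z : E) :
    ‖iteratedFDeriv ℝ j (gg e₁ e₂ k) z‖ ≤ MM e₁ e₂ k j :=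
  (gg_bound e₁ e₂ k j).choose_spec.2 z

/-- amplitudes -/
noncomputable def aa (e₁ e₂ : E) (k : ℕ) : ℝ :=
  (1 / 2) ^ k / 8 / (1 + ∑ j ∈ Finset.range (k + 2), MM e₁ e₂ k j)

theorem sum_MM_nonneg (e₁ e₂ : E) (k : ℕ) : 0 ≤ ∑ j ∈ Finset.range (k + 2), MM e₁ e₂ k j :=
  Finset.sum_nonneg fun j _ => MM_nonneg e₁ e₂ k j

theorem aa_pos (e₁ e₂ : E) (k : ℕ) : 0 < aa e₁ e₂ k := by
  unfold aa
  have := sum_MM_nonneg e₁ e₂ k
  positivity

theorem aa_mul_le (e₁ e₂ : E) {k j : ℕ} (hj : j ≤ k + 1) :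
    aa e₁ e₂ k * MM e₁ e₂ k j ≤ (1 / 2) ^ k / 8 := by
  unfold aa
  have h0 := sum_MM_nonneg e₁ e₂ k
  have h1 : MM e₁ e₂ k j ≤ 1 + ∑ j ∈ Finset.range (k + 2), MM e₁ e₂ k j := by
    have := Finset.single_le_sum (fun j _ => MM_nonneg e₁ e₂ k j)
      (Finset.mem_range.2 (show j < k + 2 by omega))
    linarith
  have h2 : (0 : ℝ) ≤ (1 / 2) ^ k / 8 := by positivity
  rw [div_mul_eq_mul_div, div_le_iff₀ (by linarith)]
  exact mul_le_mul_of_nonneg_left h1 h2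

/-- the terms of the series -/
noncomputable def ff (e₁ e₂ : E) (k : ℕ) (t : ℝ) (z : E) : ℝ :=
  aa e₁ e₂ k * gg e₁ e₂ k (z - t • e₁)

/-- the series -/
noncomputable def GG (e₁ e₂ : E) (τ : ℕ → ℝ) (z : E) : ℝ := ∑' k, ff e₁ e₂ k (τ k) z

theorem contDiff_ff (e₁ e₂ : E) (k : ℕ) (t : ℝ) : ContDiff ℝ ∞ (ff e₁ e₂ k t) :=
  contDiff_const.mul ((contDiff_gg e₁ e₂ k).comp (contDiff_id.sub contDiff_const))

theorem iter_ff (e₁ e₂ : E) (k : ℕ) (t : ℝ) (j : ℕ) (z : E) :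
    iteratedFDeriv ℝ j (ff e₁ e₂ k t) z =
      aa e₁ e₂ k • iteratedFDeriv ℝ j (gg e₁ e₂ k) (z - t • e₁) := by
  have e : ff e₁ e₂ k t = aa e₁ e₂ k • fun z => gg e₁ e₂ k (z - t • e₁) := by
    funext z; rfl
  rw [e, iteratedFDeriv_const_smul_apply, iteratedFDeriv_comp_sub]
  exact ((contDiff_gg e₁ e₂ k).comp (contDiff_id.sub contDiff_const)).contDiffAt.of_le
    (by exact_mod_cast le_top)

/-- summable bounds -/
noncomputable def vv (e₁ e₂ : E) (j k : ℕ) : ℝ := aa e₁ e₂ k * MM e₁ e₂ k j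

theorem vv_spec (e₁ e₂ : E) (j k : ℕ) (t : ℝ) (z : E) :
    ‖iteratedFDeriv ℝ j (ff e₁ e₂ k t) z‖ ≤ vv e₁ e₂ j k := by
  rw [iter_ff, norm_smul, Real.norm_of_nonneg (aa_pos e₁ e₂ k).le]
  exact mul_le_mul_of_nonneg_left (MM_spec _ _ _ _ _) (aa_pos e₁ e₂ k).le

theorem vv_summable (e₁ e₂ : E) (j : ℕ) : Summable (vv e₁ e₂ j) := by
  have h1 : Summable (fun k : ℕ => ((1 / 2 : ℝ)) ^ k / 8) :=
    (summable_geometric_of_lt_one (by norm_num) (by norm_num)).div_const 8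
  refine Summable.of_norm_bounded_eventually_nat h1 ?_
  filter_upwards [eventually_ge_atTop j] with k hk
  have h0 : 0 ≤ vv e₁ e₂ j k := mul_nonneg (aa_pos e₁ e₂ k).le (MM_nonneg e₁ e₂ k j)
  rw [Real.norm_of_nonneg h0]
  exact aa_mul_le e₁ e₂ (by omega)

theorem contDiff_GG (e₁ e₂ : E) (τ : ℕ → ℝ) : ContDiff ℝ ∞ (GG e₁ e₂ τ) := by
  unfold GG
  exact contDiff_tsum (N := ⊤) (fun k => contDiff_ff e₁ e₂ k (τ k)) (v := vv e₁ e₂)
    (fun j _ => vv_summable e₁ e₂ j) (fun j k z _ => vv_spec e₁ e₂ j k (τ k) z)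

theorem iter_GG (e₁ e₂ : E) (τ : ℕ → ℝ) (j : ℕ) (z : E) :
    iteratedFDeriv ℝ j (GG e₁ e₂ τ) z = ∑' k, iteratedFDeriv ℝ j (ff e₁ e₂ k (τ k)) z := by
  have h := iteratedFDeriv_tsum_apply (𝕜 := ℝ) (N := ⊤)
    (fun k => contDiff_ff e₁ e₂ k (τ k)) (v := vv e₁ e₂)
    (fun j _ => vv_summable e₁ e₂ j) (fun j k z _ => vv_spec e₁ e₂ j k (τ k) z)
    (k := j) (by exact_mod_cast le_top) z
  exact h

theorem continuous_iter_GG (e₁ e₂ : E) (j : ℕ) :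
    Continuous (fun q : (ℕ → ℝ) × E => iteratedFDeriv ℝ j (GG e₁ e₂ q.1) q.2) := by
  have e : (fun q : (ℕ → ℝ) × E => iteratedFDeriv ℝ j (GG e₁ e₂ q.1) q.2) =
      fun q => ∑' k, aa e₁ e₂ k • iteratedFDeriv ℝ j (gg e₁ e₂ k) (q.2 - q.1 k • e₁) := by
    funext q
    rw [iter_GG]
    simp_rw [iter_ff]
  rw [e]
  refine continuous_tsum (u := vv e₁ e₂ j) (fun k => ?_) (vv_summable e₁ e₂ j) fun k q => ?_
  · have h1 : Continuous (iteratedFDeriv ℝ j (gg e₁ e₂ k)) :=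
      (contDiff_gg e₁ e₂ k).continuous_iteratedFDeriv (by exact_mod_cast le_top)
    have h2 : Continuous (fun q : (ℕ → ℝ) × E => q.2 - q.1 k • e₁) := by fun_prop
    exact (h1.comp h2).const_smul (aa e₁ e₂ k)
  · rw [← iter_ff]
    exact vv_spec _ _ _ _ _ _

theorem tsum_v1 (e₁ e₂ : E) : ∑' k, vv e₁ e₂ 1 k ≤ 1 / 4 := by
  have h1 : Summable (fun k : ℕ => ((1 / 2 : ℝ)) ^ k / 8) :=
    (summable_geometric_of_lt_one (by norm_num) (by norm_num)).div_const 8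
  calc ∑' k, vv e₁ e₂ 1 k ≤ ∑' k : ℕ, ((1 / 2 : ℝ)) ^ k / 8 :=
        (vv_summable e₁ e₂ 1).tsum_le_tsum (fun k => aa_mul_le e₁ e₂ (by omega)) h1
    _ = 1 / 4 := by
        rw [tsum_div_const, tsum_geometric_of_lt_one (by norm_num) (by norm_num)]
        norm_num

theorem fderiv_GG_le (e₁ e₂ : E) (τ : ℕ → ℝ) (z : E) : ‖fderiv ℝ (GG e₁ e₂ τ) z‖ ≤ 1 / 4 := by
  have h1 : ‖fderiv ℝ (GG e₁ e₂ τ) z‖ = ‖iteratedFDeriv ℝ 1 (GG e₁ e₂ τ) z‖ := by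
    rw [norm_iteratedFDeriv_one]
  rw [h1, iter_GG]
  have h2 : Summable fun k => ‖iteratedFDeriv ℝ 1 (ff e₁ e₂ k (τ k)) z‖ :=
    Summable.of_nonneg_of_le (fun _ => norm_nonneg _) (fun k => vv_spec e₁ e₂ 1 k (τ k) z)
      (vv_summable e₁ e₂ 1)
  refine (norm_tsum_le_tsum_norm h2).trans ?_
  exact (h2.tsum_le_tsum (fun k => vv_spec e₁ e₂ 1 k (τ k) z) (vv_summable e₁ e₂ 1)).trans
    (tsum_v1 e₁ e₂)

theorem lipschitz_GG (e₁ e₂ : E) (τ : ℕ → ℝ) : LipschitzWith (1 / 4) (GG e₁ e₂ τ) := by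
  refine lipschitzWith_of_nnnorm_fderiv_le (𝕜 := ℝ) ?_ fun z => ?_
  · exact (contDiff_GG e₁ e₂ τ).differentiable (by simp)
  · have := fderiv_GG_le e₁ e₂ τ z
    exact_mod_cast this

end Pool.Agent.W922.TB
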