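import Mathlib
import Pool.Agent.W922.TB.Bump
import Pool.Agent.W922.InvJet

/-!
# The diffeomorphisms of the vector space
-/

set_option autoImplicit false

open Set Filter Topology
open scoped ContDiff InnerProductSpace
open Pool.Agent.H410R3.DG

namespace Pool.Agent.W922.TB

set_option linter.unusedSectionVars false

variable {E : Type} [NormedAddCommGroup E] [InnerProductSpace ℝ E] [FiniteDimensional ℝ E]

/-- the map `z ↦ z + G(z) e₁` -/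
noncomputable def TT (e₁ e₂ : E) (τ : ℕ → ℝ) (z : E) : E := z + GG e₁ e₂ τ z • e₁

theorem contDiff_TT (e₁ e₂ : E) (τ : ℕ → ℝ) : ContDiff ℝ ∞ (TT e₁ e₂ τ) :=
  contDiff_id.add ((contDiff_GG e₁ e₂ τ).smul contDiff_const)

theorem jet_TT (e₁ e₂ : E) (τ : ℕ → ℝ) (z : E) :
    JetAt ⊤ (fun τ : ℕ → ℝ => TT e₁ e₂ τ) (τ, z) := by
  refine ⟨Eventually.of_forall fun q => (contDiff_TT e₁ e₂ q.1).contDiffAt, fun j _ => ?_⟩
  let L : ℝ →L[ℝ] E := (ContinuousLinearMap.id ℝ ℝ).smulRight e₁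
  have e : (fun q : (ℕ → ℝ) × E => iteratedFDeriv ℝ j (TT e₁ e₂ q.1) q.2) =
      fun q => iteratedFDeriv ℝ j (fun z : E => z) q.2 +
        L.compContinuousMultilinearMap (iteratedFDeriv ℝ j (GG e₁ e₂ q.1) q.2) := by
    funext q
    have h1 : TT e₁ e₂ q.1 = (fun z : E => z) + (L ∘ GG e₁ e₂ q.1) := by
      funext z
      simp [TT, L]
    have h2 : ContDiffAt ℝ j (GG e₁ e₂ q.1) q.2 :=
      (contDiff_GG e₁ e₂ q.1).contDiffAt.of_le (by exact_mod_cast le_top)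
    have hid : ContDiffAt ℝ j (fun z : E => z) q.2 := contDiffAt_id
    rw [h1, iteratedFDeriv_add_apply hid (L.contDiff.contDiffAt.comp _ h2),
      L.iteratedFDeriv_comp_left h2 le_rfl]
  rw [e]
  have h3 : Continuous (fun q : (ℕ → ℝ) × E => iteratedFDeriv ℝ j (fun z : E => z) q.2) :=
    ((contDiff_id (n := ∞)).continuous_iteratedFDeriv (m := j)
      (by exact_mod_cast le_top)).comp continuous_snd
  have h4 : Continuous (fun q : (ℕ → ℝ) × E =>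
      L.compContinuousMultilinearMap (iteratedFDeriv ℝ j (GG e₁ e₂ q.1) q.2)) := by
    have h5 := continuous_iter_GG e₁ e₂ j
    have h6 : Continuous (fun A : ContinuousMultilinearMap ℝ (fun _ : Fin j => E) ℝ =>
        L.compContinuousMultilinearMap A) :=
      (ContinuousLinearMap.compContinuousMultilinearMapL ℝ (fun _ : Fin j => E) ℝ E L).continuous
    exact h6.comp h5
  exact (h3.add h4).continuousAt

theorem approx_TT {e₁ : E} (h1 : ‖e₁‖ = 1) (e₂ : E) (τ : ℕ → ℝ) :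
    ApproximatesLinearOn (TT e₁ e₂ τ) ((ContinuousLinearEquiv.refl ℝ E : E ≃L[ℝ] E) : E →L[ℝ] E)
      univ (1 / 4) := by
  intro z _ w _
  have e : TT e₁ e₂ τ z - TT e₁ e₂ τ w -
      ((ContinuousLinearEquiv.refl ℝ E : E ≃L[ℝ] E) : E →L[ℝ] E) (z - w) =
      (GG e₁ e₂ τ z - GG e₁ e₂ τ w) • e₁ := by
    simp only [TT, ContinuousLinearEquiv.coe_coe, ContinuousLinearEquiv.coe_refl', id_eq]
    module
  rw [e, norm_smul, h1, mul_one, ← dist_eq_norm, ← dist_eq_norm]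
  exact (lipschitz_GG e₁ e₂ τ).dist_le_mul z w

theorem const_ok : Subsingleton E ∨ (1 / 4 : NNReal) <
    ‖((ContinuousLinearEquiv.refl ℝ E : E ≃L[ℝ] E).symm : E →L[ℝ] E)‖₊⁻¹ := by
  rcases subsingleton_or_nontrivial E with h | h
  · exact Or.inl h
  · right
    have : ‖((ContinuousLinearEquiv.refl ℝ E : E ≃L[ℝ] E).symm : E →L[ℝ] E)‖₊ = 1 := by
      apply NNReal.eq
      exact ContinuousLinearMap.norm_id
    rw [this, inv_one]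
    norm_num

/-- the homeomorphism -/
noncomputable def TH {e₁ : E} (h1 : ‖e₁‖ = 1) (e₂ : E) (τ : ℕ → ℝ) : E ≃ₜ E :=
  (approx_TT h1 e₂ τ).toHomeomorph _ const_ok

theorem TH_apply {e₁ : E} (h1 : ‖e₁‖ = 1) (e₂ : E) (τ : ℕ → ℝ) (z : E) :
    TH h1 e₂ τ z = TT e₁ e₂ τ z := rfl

theorem contDiff_TH_symm {e₁ : E} (h1 : ‖e₁‖ = 1) (e₂ : E) (τ : ℕ → ℝ) :
    ContDiff ℝ ∞ (TH h1 e₂ τ).symm := by
  have hG : Differentiable ℝ (GG e₁ e₂ τ) := (contDiff_GG e₁ e₂ τ).differentiable (by simp)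
  have hd : ∀ a, HasFDerivAt (TH h1 e₂ τ)
      (ContinuousLinearMap.id ℝ E + (fderiv ℝ (GG e₁ e₂ τ) a).smulRight e₁) a := by
    intro a
    exact (hasFDerivAt_id a).add ((hG a).hasFDerivAt.smul_const e₁)
  have hu : ∀ a, ∃ e : E ≃L[ℝ] E, (e : E →L[ℝ] E) =
      ContinuousLinearMap.id ℝ E + (fderiv ℝ (GG e₁ e₂ τ) a).smulRight e₁ := by
    intro a
    set φ := fderiv ℝ (GG e₁ e₂ τ) a with hφ
    have h2 : |φ e₁| ≤ 1 / 4 := by
      have := φ.le_opNorm e₁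
      rw [h1, mul_one] at this
      exact this.trans (fderiv_GG_le e₁ e₂ τ a)
    have h3 : (1 + φ e₁) ≠ 0 := by
      have := abs_le.1 h2
      intro h
      linarith
    refine ⟨ContinuousLinearEquiv.equivOfInverse (ContinuousLinearMap.id ℝ E + φ.smulRight e₁)
      (ContinuousLinearMap.id ℝ E - ((1 + φ e₁)⁻¹ • φ).smulRight e₁) ?_ ?_, rfl⟩
    · intro x
      simp only [add_apply, sub_apply,
        ContinuousLinearMap.id_apply, ContinuousLinearMap.smulRight_apply,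
        smul_apply, map_add, map_smul, smul_eq_mul]
      have h4 : x - ((1 + φ e₁)⁻¹ * φ x) • e₁ + φ x • (e₁ - ((1 + φ e₁)⁻¹ * φ e₁) • e₁) =
          x + (φ x - (1 + φ e₁)⁻¹ * φ x - φ x * ((1 + φ e₁)⁻¹ * φ e₁)) • e₁ := by
        module
      have h5 : φ x - (1 + φ e₁)⁻¹ * φ x - φ x * ((1 + φ e₁)⁻¹ * φ e₁) = 0 := by
        field_simp
        ring
      rw [h4, h5, zero_smul, add_zero]
    · intro x
      simp only [add_apply, sub_apply,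
        ContinuousLinearMap.id_apply, ContinuousLinearMap.smulRight_apply,
        smul_apply, map_sub, map_smul, smul_eq_mul]
      have h4 : x + φ x • e₁ - ((1 + φ e₁)⁻¹ * φ x) • (e₁ + φ e₁ • e₁) =
          x + (φ x - (1 + φ e₁)⁻¹ * φ x - (1 + φ e₁)⁻¹ * φ x * φ e₁) • e₁ := by
        module
      have h5 : φ x - (1 + φ e₁)⁻¹ * φ x - (1 + φ e₁)⁻¹ * φ x * φ e₁ = 0 := by
        field_simp
        ring
      rw [h4, h5, zero_smul, add_zero]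
  choose e he using hu
  refine (TH h1 e₂ τ).contDiff_symm (f₀' := e) (fun a => ?_) (contDiff_TT e₁ e₂ τ)
  rw [he]
  exact hd a

/-! ### Slabs -/

theorem slab_unique {u : ℝ} {k l : ℕ} (hk : |u - (1 / 2) ^ k| < 2 * rr k)
    (hl : |u - (1 / 2) ^ l| < 2 * rr l) : k = l := by
  by_contra hne
  wlog h : k < l generalizing k l
  · exact this hl hk (Ne.symm hne) (lt_of_le_of_ne (not_lt.1 h) (Ne.symm hne))
  have h1 : ((1 : ℝ) / 2) ^ l ≤ (1 / 2) ^ k * (1 / 2) := by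
    rw [← pow_succ]
    exact pow_le_pow_of_le_one (by norm_num) (by norm_num) h
  have h2 : (0 : ℝ) < (1 / 2) ^ k := by positivity
  unfold rr at hk hl
  rw [abs_lt] at hk hl
  linarith [hk.1, hl.2]

/-- the balls -/
def BB (e₁ e₂ : E) (τ : ℕ → ℝ) (k : ℕ) : Set E := Metric.ball (cc e₂ k + τ k • e₁) (rr k)

/-- the isolated zeros -/
noncomputable def zz (e₁ e₂ : E) (τ : ℕ → ℝ) (k i : ℕ) : E := pp e₁ e₂ k i + τ k • e₁

variable {e₁ e₂ : E}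

theorem inner_of_mem (h2 : ‖e₂‖ = 1) (h12 : ⟪e₂, e₁⟫_ℝ = 0) {τ : ℕ → ℝ} {k : ℕ} {z : E}
    (hz : z ∈ BB e₁ e₂ τ k) : |⟪e₂, z⟫_ℝ - (1 / 2) ^ k| < rr k := by
  have e : ⟪e₂, z⟫_ℝ - (1 / 2) ^ k = ⟪e₂, z - (cc e₂ k + τ k • e₁)⟫_ℝ := by
    unfold cc
    rw [inner_sub_right, inner_add_right, inner_smul_right, inner_smul_right, h12,
      real_inner_self_eq_norm_sq, h2]
    ring
  rw [e]
  have h3 := abs_real_inner_le_norm e₂ (z - (cc e₂ k + τ k • e₁))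
  rw [h2, one_mul] at h3
  have h4 : ‖z - (cc e₂ k + τ k • e₁)‖ < rr k := by
    rw [← dist_eq_norm]; exact hz
  exact h3.trans_lt h4

theorem inner_of_mem' (h2 : ‖e₂‖ = 1) (h12 : ⟪e₂, e₁⟫_ℝ = 0) {τ : ℕ → ℝ} {k : ℕ} {z : E}
    (hz : z ∈ BB e₁ e₂ τ k) : |⟪e₂, z⟫_ℝ - (1 / 2) ^ k| < 2 * rr k := by
  have := inner_of_mem h2 h12 hz
  have := rr_pos k
  linarith

theorem BB_disj (h2 : ‖e₂‖ = 1) (h12 : ⟪e₂, e₁⟫_ℝ = 0) {τ τ' : ℕ → ℝ} {k l : ℕ} {z w : E}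
    (hz : z ∈ BB e₁ e₂ τ k) (hw : w ∈ BB e₁ e₂ τ' l) (h : ⟪e₂, z⟫_ℝ = ⟪e₂, w⟫_ℝ) : k = l := by
  have a1 := inner_of_mem' h2 h12 hz
  have a2 := inner_of_mem' h2 h12 hw
  rw [h] at a1
  exact slab_unique a1 a2

theorem ff_ne_zero {k : ℕ} {τ : ℕ → ℝ} {z : E} : ff e₁ e₂ k (τ k) z ≠ 0 ↔
    z ∈ BB e₁ e₂ τ k ∧ ∀ i ≤ k, z ≠ zz e₁ e₂ τ k i := by
  unfold ff
  rw [mul_ne_zero_iff, gg_ne_zero]
  have h0 : aa e₁ e₂ k ≠ 0 := (aa_pos e₁ e₂ k).ne'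
  simp only [h0, ne_eq, not_false_eq_true, true_and]
  refine and_congr ?_ ?_
  · unfold BB
    rw [Metric.mem_ball, Metric.mem_ball, dist_eq_norm, dist_eq_norm]
    have : z - τ k • e₁ - cc e₂ k = z - (cc e₂ k + τ k • e₁) := by abel
    rw [this]
  · refine forall_congr' fun i => imp_congr_right fun _ => not_congr ?_
    unfold zz
    rw [sub_eq_iff_eq_add]

theorem GG_eq (h2 : ‖e₂‖ = 1) (h12 : ⟪e₂, e₁⟫_ℝ = 0) (τ : ℕ → ℝ) {k : ℕ} {z : E}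
    (hz : |⟪e₂, z⟫_ℝ - (1 / 2) ^ k| < 2 * rr k) : GG e₁ e₂ τ z = ff e₁ e₂ k (τ k) z := by
  unfold GG
  refine tsum_eq_single k fun l hl => ?_
  by_contra h
  have h3 := inner_of_mem' h2 h12 (ff_ne_zero.1 h).1
  exact hl (slab_unique h3 hz)

theorem GG_ne_zero (h2 : ‖e₂‖ = 1) (h12 : ⟪e₂, e₁⟫_ℝ = 0) (τ : ℕ → ℝ) (z : E) :
    GG e₁ e₂ τ z ≠ 0 ↔ ∃ k, z ∈ BB e₁ e₂ τ k ∧ ∀ i ≤ k, z ≠ zz e₁ e₂ τ k i := by
  constructor
  · intro h
    by_contra hcon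
    push Not at hcon
    apply h
    unfold GG
    have : ∀ k, ff e₁ e₂ k (τ k) z = 0 := by
      intro k
      by_contra h3
      have h4 := ff_ne_zero.1 h3
      obtain ⟨i, hi, hzi⟩ := hcon k h4.1
      exact h4.2 i hi hzi
    simp [this]
  · rintro ⟨k, hk, hi⟩
    rw [GG_eq h2 h12 τ (inner_of_mem' h2 h12 hk)]
    exact ff_ne_zero.2 ⟨hk, hi⟩

theorem GG_eq_zero (h2 : ‖e₂‖ = 1) (h12 : ⟪e₂, e₁⟫_ℝ = 0) {τ : ℕ → ℝ} {z : E}
    (hz : ∀ k, z ∉ BB e₁ e₂ τ k) : GG e₁ e₂ τ z = 0 := by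
  by_contra h
  obtain ⟨k, hk, -⟩ := (GG_ne_zero h2 h12 τ z).1 h
  exact hz k hk

theorem TT_eq_self (h1 : ‖e₁‖ = 1) (τ : ℕ → ℝ) (z : E) :
    TT e₁ e₂ τ z = z ↔ GG e₁ e₂ τ z = 0 := by
  unfold TT
  rw [add_eq_left, smul_eq_zero]
  have : e₁ ≠ 0 := by
    intro h
    rw [h, norm_zero] at h1
    exact zero_ne_one h1
  simp [this]

theorem inner_TT (h12 : ⟪e₂, e₁⟫_ℝ = 0) (τ : ℕ → ℝ) (z : E) :
    ⟪e₂, TT e₁ e₂ τ z⟫_ℝ = ⟪e₂, z⟫_ℝ := by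
  unfold TT
  rw [inner_add_right, inner_smul_right, h12]
  ring

theorem TT_mem (h1 : ‖e₁‖ = 1) (h2 : ‖e₂‖ = 1) (h12 : ⟪e₂, e₁⟫_ℝ = 0) {τ : ℕ → ℝ} {k : ℕ} {z : E}
    (hz : z ∈ BB e₁ e₂ τ k) : TT e₁ e₂ τ z ∈ BB e₁ e₂ τ k := by
  by_contra hcon
  have h3 : ∀ l, TT e₁ e₂ τ z ∉ BB e₁ e₂ τ l := by
    intro l hl
    have : k = l := BB_disj h2 h12 hz hl (inner_TT h12 τ z).symm
    subst this
    exact hcon hl
  have h4 : TT e₁ e₂ τ (TT e₁ e₂ τ z) = TT e₁ e₂ τ z :=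
    (TT_eq_self h1 τ _).2 (GG_eq_zero h2 h12 h3)
  have h5 : TT e₁ e₂ τ z = z := (TH h1 e₂ τ).injective h4
  rw [h5] at hcon
  exact hcon hz

theorem BB_subset (h1 : ‖e₁‖ = 1) (h2 : ‖e₂‖ = 1) {τ : ℕ → ℝ} (hτ : ∀ k, |τ k| ≤ 1 / 2) (k : ℕ) :
    BB e₁ e₂ τ k ⊆ Metric.ball (0 : E) 2 := by
  intro z hz
  have h3 : ‖z - (cc e₂ k + τ k • e₁)‖ < rr k := by
    rw [← dist_eq_norm]; exact hz
  have h4 : ‖cc e₂ k‖ ≤ 1 := by
    unfold cc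
    rw [norm_smul, h2, mul_one, Real.norm_of_nonneg (by positivity)]
    exact pow_le_one₀ (by norm_num) (by norm_num)
  have h5 : ‖τ k • e₁‖ ≤ 1 / 2 := by
    rw [norm_smul, h1, mul_one]; exact hτ k
  have h6 : rr k ≤ 1 / 8 := by
    unfold rr
    have : ((1 : ℝ) / 2) ^ k ≤ 1 := pow_le_one₀ (by norm_num) (by norm_num)
    linarith
  rw [mem_ball_zero_iff]
  calc ‖z‖ = ‖(z - (cc e₂ k + τ k • e₁)) + cc e₂ k + τ k • e₁‖ := by
        congr 1; abel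
    _ ≤ ‖z - (cc e₂ k + τ k • e₁)‖ + ‖cc e₂ k‖ + ‖τ k • e₁‖ := norm_add₃_le
    _ < 2 := by linarith

end Pool.Agent.W922.TB
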