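import Mathlib
import Pool.Agent.W922.TB.Map

/-!
# The conjugating homeomorphism of the vector space
-/

set_option autoImplicit false

open Set Filter Topology
open scoped ContDiff InnerProductSpace

namespace Pool.Agent.W922.TB

set_option linter.unusedSectionVars false

variable {E : Type} [NormedAddCommGroup E] [InnerProductSpace ℝ E] [FiniteDimensional ℝ E]

/-- tents -/
noncomputable def tk (k : ℕ) (u : ℝ) : ℝ := max 0 (min 1 (2 - |u - (1 / 2) ^ k| / rr k))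

theorem tk_cont (k : ℕ) : Continuous (tk k) := by
  unfold tk
  fun_prop

theorem tk_nonneg (k : ℕ) (u : ℝ) : 0 ≤ tk k u := le_max_left _ _

theorem tk_le (k : ℕ) (u : ℝ) : tk k u ≤ 1 := max_le zero_le_one (min_le_left _ _)

theorem tk_one {k : ℕ} {u : ℝ} (h : |u - (1 / 2) ^ k| ≤ rr k) : tk k u = 1 := by
  have hr := rr_pos k
  have h1 : |u - (1 / 2) ^ k| / rr k ≤ 1 := (div_le_one hr).2 h
  unfold tk
  generalize |u - (1 / 2) ^ k| / rr k = q at h1 ⊢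
  rw [min_eq_left (by linarith), max_eq_right zero_le_one]

theorem tk_zero {k : ℕ} {u : ℝ} (h : tk k u ≠ 0) : |u - (1 / 2) ^ k| < 2 * rr k := by
  by_contra hcon
  apply h
  have hr := rr_pos k
  have h1 : 2 ≤ |u - (1 / 2) ^ k| / rr k := (le_div_iff₀ hr).2 (not_lt.1 hcon)
  unfold tk
  generalize |u - (1 / 2) ^ k| / rr k = q at h1 ⊢
  exact max_eq_left ((min_le_right _ _).trans (by linarith))

/-- the shift -/
noncomputable def LL (d : ℕ → ℝ) (u : ℝ) : ℝ := ∑' k, d k * tk k u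

theorem LL_single (d : ℕ → ℝ) {k : ℕ} {u : ℝ} (h : |u - (1 / 2) ^ k| < 2 * rr k) :
    LL d u = d k * tk k u := by
  unfold LL
  refine tsum_eq_single k fun l hl => ?_
  have : tk l u = 0 := by
    by_contra h1
    exact hl (slab_unique (tk_zero h1) h)
  rw [this, mul_zero]

theorem LL_eq (d : ℕ → ℝ) {k : ℕ} {u : ℝ} (h : |u - (1 / 2) ^ k| ≤ rr k) :
    LL d u = d k := by
  have hr := rr_pos k
  rw [LL_single d (by linarith), tk_one h, mul_one]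

theorem LL_le {d : ℕ → ℝ} (hd : ∀ k, |d k| ≤ 1 / 2) (u : ℝ) : |LL d u| ≤ 1 / 2 := by
  by_cases h : ∃ k, |u - (1 / 2) ^ k| < 2 * rr k
  · obtain ⟨k, hk⟩ := h
    rw [LL_single d hk, abs_mul, abs_of_nonneg (tk_nonneg k u)]
    calc |d k| * tk k u ≤ |d k| * 1 := mul_le_mul_of_nonneg_left (tk_le k u) (abs_nonneg _)
      _ ≤ 1 / 2 := by rw [mul_one]; exact hd k
  · have h1 : LL d u = 0 := by
      unfold LL
      have : ∀ k, d k * tk k u = 0 := by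
        intro k
        have : tk k u = 0 := by
          by_contra h2
          exact h ⟨k, tk_zero h2⟩
        rw [this, mul_zero]
      simp [this]
    rw [h1, abs_zero]
    norm_num

theorem LL_cont {d : ℕ → ℝ} (hd : Summable fun k => |d k|) : Continuous (LL d) := by
  unfold LL
  refine continuous_tsum (u := fun k => |d k|) (fun k => (tk_cont k).const_mul _) hd fun k u => ?_
  rw [norm_mul, Real.norm_eq_abs, Real.norm_of_nonneg (tk_nonneg k u)]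
  calc |d k| * tk k u ≤ |d k| * 1 := mul_le_mul_of_nonneg_left (tk_le k u) (abs_nonneg _)
      _ = |d k| := mul_one _

/-- cutoff -/
noncomputable def ct (s : ℝ) : ℝ := max 0 (min 1 (4 - s))

theorem ct_cont : Continuous ct := by
  unfold ct
  fun_prop

theorem ct_one {s : ℝ} (h : s ≤ 3) : ct s = 1 := by
  unfold ct
  rw [min_eq_left (by linarith), max_eq_right zero_le_one]

theorem ct_zero {s : ℝ} (h : 4 ≤ s) : ct s = 0 := by
  unfold ct
  exact max_eq_left ((min_le_right _ _).trans (by linarith))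

theorem ct_nonneg (s : ℝ) : 0 ≤ ct s := le_max_left _ _

theorem ct_le (s : ℝ) : ct s ≤ 1 := max_le zero_le_one (min_le_left _ _)

theorem ct_lip (s t : ℝ) : |ct s - ct t| ≤ |s - t| := by
  unfold ct
  refine (abs_max_sub_max_le_max _ _ _ _).trans ?_
  rw [sub_self, abs_zero]
  refine max_le (abs_nonneg _) ?_
  refine (abs_min_sub_min_le_max _ _ _ _).trans ?_
  rw [sub_self, abs_zero]
  refine max_le (abs_nonneg _) ?_
  have : 4 - s - (4 - t) = -(s - t) := by ring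
  rw [this, abs_neg]

/-- the conjugating map -/
noncomputable def hh (e₁ e₂ : E) (d : ℕ → ℝ) (z : E) : E :=
  z + (ct ‖z‖ * LL d ⟪e₂, z⟫_ℝ) • e₁

variable {e₁ e₂ : E} {d : ℕ → ℝ}

theorem hh_cont (e₁ e₂ : E) (hd : Summable fun k => |d k|) : Continuous (hh e₁ e₂ d) := by
  unfold hh
  have h1 := LL_cont hd
  have h2 := ct_cont
  have h3 : Continuous (fun z : E => LL d ⟪e₂, z⟫_ℝ) :=
    h1.comp (continuous_const.inner continuous_id)
  have h4 : Continuous (fun z : E => ct ‖z‖) := h2.comp continuous_norm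
  exact continuous_id.add ((h4.mul h3).smul continuous_const)

theorem hh_id {z : E} (hz : z ∉ Metric.closedBall (0 : E) 4) : hh e₁ e₂ d z = z := by
  rw [mem_closedBall_zero_iff, not_le] at hz
  unfold hh
  rw [ct_zero hz.le, zero_mul, zero_smul, add_zero]

theorem inner_hh (h12 : ⟪e₂, e₁⟫_ℝ = 0) (z : E) : ⟪e₂, hh e₁ e₂ d z⟫_ℝ = ⟪e₂, z⟫_ℝ := by
  unfold hh
  rw [inner_add_right, inner_smul_right, h12]
  ring

theorem hh_inj (h1 : ‖e₁‖ = 1) (h12 : ⟪e₂, e₁⟫_ℝ = 0) (hd : ∀ k, |d k| ≤ 1 / 2) :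
    Function.Injective (hh e₁ e₂ d) := by
  intro z w h
  have h3 : ⟪e₂, z⟫_ℝ = ⟪e₂, w⟫_ℝ := by
    rw [← inner_hh (d := d) h12 z, h, inner_hh h12]
  have h4 : z - w = ((ct ‖w‖ - ct ‖z‖) * LL d ⟪e₂, w⟫_ℝ) • e₁ := by
    unfold hh at h
    rw [h3] at h
    have : z = w + (ct ‖w‖ * LL d ⟪e₂, w⟫_ℝ) • e₁ - (ct ‖z‖ * LL d ⟪e₂, w⟫_ℝ) • e₁ := by
      rw [← h]; abel
    rw [sub_mul, sub_smul]
    nth_rewrite 1 [this]
    abel
  have h5 : ‖z - w‖ ≤ ‖z - w‖ * (1 / 2) := by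
    calc ‖z - w‖ = |ct ‖w‖ - ct ‖z‖| * |LL d ⟪e₂, w⟫_ℝ| := by
          rw [h4, norm_smul, h1, mul_one, norm_mul, Real.norm_eq_abs, Real.norm_eq_abs]
      _ ≤ ‖z - w‖ * (1 / 2) := by
          refine mul_le_mul ?_ (LL_le hd _) (abs_nonneg _) (norm_nonneg _)
          refine (ct_lip _ _).trans ?_
          rw [← norm_sub_rev w z]
          exact abs_norm_sub_norm_le w z
  have h6 : ‖z - w‖ = 0 := by
    have := norm_nonneg (z - w)
    linarith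
  exact sub_eq_zero.1 (norm_eq_zero.1 h6)

theorem hh_surj (h12 : ⟪e₂, e₁⟫_ℝ = 0) (hd : ∀ k, |d k| ≤ 1 / 2) :
    Function.Surjective (hh e₁ e₂ d) := by
  intro w
  set Λ := LL d ⟪e₂, w⟫_ℝ with hΛ
  have hΛ1 : |Λ| ≤ 1 / 2 := LL_le hd _
  let q : ℝ → ℝ := fun s => s + ct ‖w + s • e₁‖ * Λ
  have hq : Continuous q := by
    have h0 : Continuous (fun s : ℝ => ‖w + s • e₁‖) := by fun_prop
    have : Continuous (fun s : ℝ => ct ‖w + s • e₁‖) := ct_cont.comp h0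
    exact continuous_id.add (this.mul continuous_const)
  have hb : ∀ s : ℝ, |ct ‖w + s • e₁‖ * Λ| ≤ 1 / 2 := by
    intro s
    rw [abs_mul, abs_of_nonneg (ct_nonneg _)]
    calc ct ‖w + s • e₁‖ * |Λ| ≤ 1 * |Λ| := mul_le_mul_of_nonneg_right (ct_le _) (abs_nonneg _)
      _ ≤ 1 / 2 := by rw [one_mul]; exact hΛ1
  have h0 : (0 : ℝ) ∈ Icc (q (-(1 / 2))) (q (1 / 2)) := by
    have a1 := (abs_le.1 (hb (-(1 / 2)))).2
    have a2 := (abs_le.1 (hb (1 / 2))).1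
    have b1 : q (-(1 / 2)) = -(1 / 2) + ct ‖w + (-(1 / 2) : ℝ) • e₁‖ * Λ := rfl
    have b2 : q (1 / 2) = 1 / 2 + ct ‖w + (1 / 2 : ℝ) • e₁‖ * Λ := rfl
    constructor
    · rw [b1]
      linarith
    · rw [b2]
      linarith
  obtain ⟨s, -, hs⟩ := intermediate_value_Icc (by norm_num) hq.continuousOn h0
  refine ⟨w + s • e₁, ?_⟩
  unfold hh
  have h3 : ⟪e₂, w + s • e₁⟫_ℝ = ⟪e₂, w⟫_ℝ := by
    rw [inner_add_right, inner_smul_right, h12]
    ring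
  rw [h3, add_assoc, ← add_smul]
  have : s + ct ‖w + s • e₁‖ * LL d ⟪e₂, w⟫_ℝ = 0 := hs
  rw [this, zero_smul, add_zero]

theorem hh_of_mem (h1 : ‖e₁‖ = 1) (h2 : ‖e₂‖ = 1) (h12 : ⟪e₂, e₁⟫_ℝ = 0) {τ : ℕ → ℝ}
    (hτ : ∀ k, |τ k| ≤ 1 / 2) {k : ℕ} {z : E} (hz : z ∈ BB e₁ e₂ τ k) :
    hh e₁ e₂ d z = z + d k • e₁ := by
  unfold hh
  have h3 := BB_subset h1 h2 hτ k hz
  rw [mem_ball_zero_iff] at h3
  rw [ct_one (by linarith), one_mul, LL_eq d (inner_of_mem h2 h12 hz).le]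

theorem hh_conj (h1 : ‖e₁‖ = 1) (h2 : ‖e₂‖ = 1) (h12 : ⟪e₂, e₁⟫_ℝ = 0) {τ τ' : ℕ → ℝ}
    (hτ : ∀ k, |τ k| ≤ 1 / 2) (hτ' : ∀ k, |τ' k| ≤ 1 / 2)
    (hd : ∀ k, |τ' k - τ k| ≤ 1 / 2) (z : E) :
    hh e₁ e₂ (fun k => τ' k - τ k) (TT e₁ e₂ τ z) =
      TT e₁ e₂ τ' (hh e₁ e₂ (fun k => τ' k - τ k) z) := by
  by_cases h : ∃ k, z ∈ BB e₁ e₂ τ k
  · obtain ⟨k, hk⟩ := h
    have hk' := TT_mem h1 h2 h12 hk
    rw [hh_of_mem h1 h2 h12 hτ hk', hh_of_mem h1 h2 h12 hτ hk]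
    have h3 := inner_of_mem' h2 h12 hk
    have h4 : |⟪e₂, z + (τ' k - τ k) • e₁⟫_ℝ - (1 / 2) ^ k| < 2 * rr k := by
      rw [inner_add_right, inner_smul_right, h12, mul_zero, add_zero]
      exact h3
    unfold TT
    rw [GG_eq h2 h12 τ h3, GG_eq h2 h12 τ' h4]
    unfold ff
    have : z + (τ' k - τ k) • e₁ - τ' k • e₁ = z - τ k • e₁ := by
      rw [sub_smul]; abel
    rw [this]
    abel
  · push Not at h
    have e1 : TT e₁ e₂ τ z = z := (TT_eq_self h1 τ z).2 (GG_eq_zero h2 h12 h)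
    rw [e1]
    refine ((TT_eq_self h1 τ' _).2 (GG_eq_zero h2 h12 fun l hl => ?_)).symm
    have h3 := inner_of_mem h2 h12 hl
    rw [inner_hh h12] at h3
    have h4 := BB_subset h1 h2 hτ' l hl
    rw [mem_ball_zero_iff] at h4
    have h5 : ‖z‖ ≤ 3 := by
      have h6 : z = hh e₁ e₂ (fun k => τ' k - τ k) z -
          (ct ‖z‖ * LL (fun k => τ' k - τ k) ⟪e₂, z⟫_ℝ) • e₁ := by
        unfold hh; abel
      have h7 : ‖(ct ‖z‖ * LL (fun k => τ' k - τ k) ⟪e₂, z⟫_ℝ) • e₁‖ ≤ 1 / 2 := by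
        rw [norm_smul, h1, mul_one, norm_mul, Real.norm_of_nonneg (ct_nonneg _), Real.norm_eq_abs]
        have a := LL_le hd ⟪e₂, z⟫_ℝ
        calc ct ‖z‖ * |LL (fun k => τ' k - τ k) ⟪e₂, z⟫_ℝ|
            ≤ 1 * |LL (fun k => τ' k - τ k) ⟪e₂, z⟫_ℝ| :=
              mul_le_mul_of_nonneg_right (ct_le _) (abs_nonneg _)
          _ ≤ 1 / 2 := by rw [one_mul]; exact a
      have h8 := norm_sub_le (hh e₁ e₂ (fun k => τ' k - τ k) z)
          ((ct ‖z‖ * LL (fun k => τ' k - τ k) ⟪e₂, z⟫_ℝ) • e₁)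
      rw [← h6] at h8
      linarith
    apply h l
    unfold hh at hl
    rw [ct_one h5, one_mul, LL_eq _ h3.le] at hl
    unfold BB at hl ⊢
    rw [Metric.mem_ball, dist_eq_norm] at hl ⊢
    have : z + (τ' l - τ l) • e₁ - (cc e₂ l + τ' l • e₁) = z - (cc e₂ l + τ l • e₁) := by
      rw [sub_smul]; abel
    rwa [this] at hl

/-- the conjugating homeomorphism, as an equivalence -/
noncomputable def HE (h1 : ‖e₁‖ = 1) (h12 : ⟪e₂, e₁⟫_ℝ = 0) (hd : ∀ k, |d k| ≤ 1 / 2) : E ≃ E :=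
  Equiv.ofBijective (hh e₁ e₂ d) ⟨hh_inj h1 h12 hd, hh_surj h12 hd⟩

end Pool.Agent.W922.TB
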