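import Mathlib
import Pool.Agent.W922.TB.Map
import Pool.Agent.W922.TB.Inv

/-!
# Invariants of conjugacy
-/

set_option autoImplicit false

open Set Filter Topology
open scoped ContDiff InnerProductSpace

namespace Pool.Agent.W922.TB

set_option linter.unusedSectionVars false

/-! ### General facts -/

section Top

theorem subset_of_preconnected {X ι : Type*} [TopologicalSpace X] {U : ι → Set X}
    (hU : ∀ i, IsOpen (U i)) (hd : ∀ i j, i ≠ j → Disjoint (U i) (U j)) {s : Set X}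
    (hs : IsPreconnected s) (hne : s.Nonempty) (hsU : s ⊆ ⋃ i, U i) : ∃ i, s ⊆ U i := by
  obtain ⟨x, hx⟩ := hne
  obtain ⟨i, hi⟩ := mem_iUnion.1 (hsU hx)
  refine ⟨i, ?_⟩
  refine hs.subset_left_of_subset_union (hU i) (v := ⋃ j ∈ {j | j ≠ i}, U j)
    (isOpen_biUnion fun j _ => hU j) ?_ ?_ ⟨x, hx, hi⟩
  · rw [disjoint_iUnion₂_right]
    intro j hj
    exact hd i j (Ne.symm hj)
  · intro y hy
    obtain ⟨j, hj⟩ := mem_iUnion.1 (hsU hy)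
    by_cases h : j = i
    · left; rw [← h]; exact hj
    · right; exact mem_iUnion₂.2 ⟨j, h, hj⟩

variable {M : Type*} [TopologicalSpace M]

/-- fixed points -/
def Fx (Φ : M → M) : Set M := {m | Φ m = m}

/-- points near which there are finitely many fixed points -/
def Wx (Φ : M → M) : Set M := {m | ∃ N ∈ 𝓝 m, (N ∩ Fx Φ).Finite}

theorem Fx_conj {Φ Φ' : M → M} {h : M ≃ₜ M} (hc : ∀ m, h (Φ m) = Φ' (h m)) (m : M) :
    h m ∈ Fx Φ' ↔ m ∈ Fx Φ := by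
  unfold Fx
  rw [mem_setOf_eq, mem_setOf_eq, ← hc, h.injective.eq_iff]

theorem Wx_conj' {Φ Φ' : M → M} {h : M ≃ₜ M} (hc : ∀ m, h (Φ m) = Φ' (h m)) {m : M}
    (hm : m ∈ Wx Φ) : h m ∈ Wx Φ' := by
  obtain ⟨N, hN, hf⟩ := hm
  refine ⟨h '' N, h.isOpenMap.image_mem_nhds hN, (hf.image h).subset ?_⟩
  rintro _ ⟨⟨m', hm', rfl⟩, hF⟩
  exact ⟨m', ⟨hm', (Fx_conj hc m').1 hF⟩, rfl⟩

theorem conj_symm {Φ Φ' : M → M} {h : M ≃ₜ M} (hc : ∀ m, h (Φ m) = Φ' (h m)) (m : M) :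
    h.symm (Φ' m) = Φ (h.symm m) := by
  rw [Homeomorph.symm_apply_eq, hc, h.apply_symm_apply]

end Top

variable {E : Type} [NormedAddCommGroup E] [InnerProductSpace ℝ E] [FiniteDimensional ℝ E]
  {M : Type*} [TopologicalSpace M] {e₁ e₂ : E}

theorem line_free (h2 : ‖e₂‖ = 1) (h12 : ⟪e₂, e₁⟫_ℝ = 0) {τ : ℕ → ℝ} {z : E}
    (hz : ∀ k, z ∉ BB e₁ e₂ τ k) :
    (∀ t : ℝ, 0 < t → ∀ k, z + t • e₁ ∉ BB e₁ e₂ τ k) ∨
      (∀ t : ℝ, t < 0 → ∀ k, z + t • e₁ ∉ BB e₁ e₂ τ k) := by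
  by_contra hcon
  push Not at hcon
  obtain ⟨⟨t, ht, k, hk⟩, ⟨s, hs, l, hl⟩⟩ := hcon
  have hkl : k = l := by
    refine BB_disj h2 h12 hk hl ?_
    rw [inner_add_right, inner_add_right, inner_smul_right, inner_smul_right, h12]
    simp
  subst hkl
  apply hz k
  have hts : 0 < t - s := by linarith
  have hcv := (convex_ball (cc e₂ k + τ k • e₁) (rr k)) hk hl
    (a := -s / (t - s)) (b := t / (t - s)) (by
      apply div_nonneg <;> linarith) (by positivity) (by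
      rw [← add_div, neg_add_eq_sub, div_self hts.ne'])
  have e : (-s / (t - s)) • (z + t • e₁) + (t / (t - s)) • (z + s • e₁) = z := by
    have e1 : (-s / (t - s)) • (z + t • e₁) + (t / (t - s)) • (z + s • e₁) =
        (-s / (t - s) + t / (t - s)) • z + (-s / (t - s) * t + t / (t - s) * s) • e₁ := by
      module
    have e2 : -s / (t - s) + t / (t - s) = 1 := by
      rw [← add_div, neg_add_eq_sub, div_self hts.ne']
    have e3 : -s / (t - s) * t + t / (t - s) * s = 0 := by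
      field_simp
      ring
    rw [e1, e2, e3, one_smul, zero_smul, add_zero]
  rw [e] at hcv
  exact hcv

/-- The data of an embedded ball. -/
structure EB (E M : Type*) [NormedAddCommGroup E] [TopologicalSpace M] (ψ : E → M) : Prop where
  inj : InjOn ψ (Metric.closedBall 0 4)
  cont : ∀ z ∈ Metric.closedBall (0 : E) 4, ContinuousAt ψ z
  op : ∀ O : Set E, IsOpen O → O ⊆ Metric.ball 0 4 → IsOpen (ψ '' O)
  cl : IsClosed (ψ '' Metric.closedBall 0 2)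

/-- `Φ` is the extension of `T` -/
structure IsExt (ψ : E → M) (T : E → E) (Φ : M → M) : Prop where
  maps : MapsTo T (Metric.closedBall 0 4) (Metric.closedBall 0 4)
  eq : ∀ z ∈ Metric.closedBall (0 : E) 4, Φ (ψ z) = ψ (T z)
  id : ∀ m, m ∉ ψ '' Metric.closedBall (0 : E) 4 → Φ m = m

section

variable {ψ : E → M} {τ τ' : ℕ → ℝ} {Φ Φ' : M → M}

theorem fix_iff (hψ : EB E M ψ) (h1 : ‖e₁‖ = 1) (hΦ : IsExt ψ (TT e₁ e₂ τ) Φ) {z : E}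
    (hz : z ∈ Metric.closedBall (0 : E) 4) : ψ z ∈ Fx Φ ↔ GG e₁ e₂ τ z = 0 := by
  unfold Fx
  rw [mem_setOf_eq, hΦ.eq z hz, ← TT_eq_self h1]
  exact ⟨fun h => hψ.inj (hΦ.maps hz) hz h, fun h => by rw [h]⟩

theorem BB_sub4 (h1 : ‖e₁‖ = 1) (h2 : ‖e₂‖ = 1) (hτ : ∀ k, |τ k| ≤ 1 / 2) (k : ℕ) :
    BB e₁ e₂ τ k ⊆ Metric.ball (0 : E) 4 :=
  (BB_subset h1 h2 hτ k).trans (Metric.ball_subset_ball (by norm_num))

theorem W_eq (hψ : EB E M ψ) (h1 : ‖e₁‖ = 1) (h2 : ‖e₂‖ = 1) (h12 : ⟪e₂, e₁⟫_ℝ = 0)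
    (hM : ∀ m : M, ∀ N ∈ 𝓝 m, N.Infinite)
    (hτ : ∀ k, |τ k| ≤ 1 / 2) (hΦ : IsExt ψ (TT e₁ e₂ τ) Φ) :
    Wx Φ = ⋃ k, ψ '' BB e₁ e₂ τ k := by
  have h10 : e₁ ≠ 0 := by
    intro h
    rw [h, norm_zero] at h1
    exact zero_ne_one h1
  apply Subset.antisymm
  · rintro m ⟨N, hN, hf⟩
    by_contra hcon
    rw [mem_iUnion] at hcon
    push Not at hcon
    by_cases hm : m ∈ ψ '' Metric.ball (0 : E) 4
    · obtain ⟨z, hz, rfl⟩ := hm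
      have hz' : ∀ k, z ∉ BB e₁ e₂ τ k := fun k hk => hcon k ⟨z, hk, rfl⟩
      -- the line
      let c : ℝ → E := fun t => z + t • e₁
      have hc : Continuous c := by
        show Continuous fun t : ℝ => z + t • e₁
        fun_prop
      have hc0 : c 0 = z := by simp [c]
      have hcN : ∀ᶠ t in 𝓝 (0 : ℝ), c t ∈ Metric.ball (0 : E) 4 ∧ ψ (c t) ∈ N := by
        have a1 : ∀ᶠ t in 𝓝 (0 : ℝ), c t ∈ Metric.ball (0 : E) 4 := by
          refine hc.continuousAt.eventually ?_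
          rw [hc0]
          exact Metric.isOpen_ball.mem_nhds hz
        have a2 : ∀ᶠ t in 𝓝 (0 : ℝ), ψ (c t) ∈ N := by
          have a3 : ContinuousAt ψ (c 0) := by
            rw [hc0]
            exact hψ.cont z (Metric.ball_subset_closedBall hz)
          have a4 : ContinuousAt (fun t => ψ (c t)) 0 := a3.comp hc.continuousAt
          have a5 : N ∈ 𝓝 (ψ (c 0)) := by rw [hc0]; exact hN
          exact a4.eventually a5
        exact a1.and a2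
      have hcinj : Function.Injective c := by
        intro t s h
        have h3 : t • e₁ = s • e₁ := add_left_cancel h
        exact smul_left_injective ℝ h10 h3
      have key : ∀ S : Set ℝ, S.Infinite → (∀ t ∈ S, c t ∈ Metric.ball (0 : E) 4 ∧ ψ (c t) ∈ N ∧
          ∀ k, c t ∉ BB e₁ e₂ τ k) → False := by
        intro S hS hSt
        have h3 : InjOn (fun t => ψ (c t)) S := by
          intro t ht s hs h
          exact hcinj (hψ.inj (Metric.ball_subset_closedBall (hSt t ht).1)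
            (Metric.ball_subset_closedBall (hSt s hs).1) h)
        refine (hS.image h3) (hf.subset ?_)
        rintro _ ⟨t, ht, rfl⟩
        refine ⟨(hSt t ht).2.1, ?_⟩
        show ψ (c t) ∈ Fx Φ
        rw [fix_iff hψ h1 hΦ (Metric.ball_subset_closedBall (hSt t ht).1)]
        exact GG_eq_zero h2 h12 (hSt t ht).2.2
      rcases line_free h2 h12 hz' with hl | hl
      · have h3 : {t : ℝ | 0 < t ∧ c t ∈ Metric.ball (0 : E) 4 ∧ ψ (c t) ∈ N} ∈ 𝓝[>] (0 : ℝ) := by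
          filter_upwards [self_mem_nhdsWithin, nhdsWithin_le_nhds hcN] with t ht hn
          exact ⟨ht, hn⟩
        obtain ⟨u, hu, hsub⟩ := mem_nhdsGT_iff_exists_Ioo_subset.1 h3
        refine key _ (Ioo_infinite hu) fun t ht => ?_
        have h4 := hsub ht
        exact ⟨h4.2.1, h4.2.2, hl t h4.1⟩
      · have h3 : {t : ℝ | t < 0 ∧ c t ∈ Metric.ball (0 : E) 4 ∧ ψ (c t) ∈ N} ∈ 𝓝[<] (0 : ℝ) := by
          filter_upwards [self_mem_nhdsWithin, nhdsWithin_le_nhds hcN] with t ht hn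
          exact ⟨ht, hn⟩
        obtain ⟨u, hu, hsub⟩ := mem_nhdsLT_iff_exists_Ioo_subset.1 h3
        refine key _ (Ioo_infinite hu) fun t ht => ?_
        have h4 := hsub ht
        exact ⟨h4.2.1, h4.2.2, hl t h4.1⟩
    · have hm2 : m ∉ ψ '' Metric.closedBall (0 : E) 2 := by
        rintro ⟨z, hz, rfl⟩
        exact hm ⟨z, Metric.closedBall_subset_ball (by norm_num) hz, rfl⟩
      have h3 : N ∩ (ψ '' Metric.closedBall (0 : E) 2)ᶜ ∈ 𝓝 m :=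
        inter_mem hN (hψ.cl.isOpen_compl.mem_nhds hm2)
      refine hM m _ h3 (hf.subset ?_)
      rintro m' ⟨hmN, hmc⟩
      refine ⟨hmN, ?_⟩
      by_cases h4 : m' ∈ ψ '' Metric.closedBall (0 : E) 4
      · obtain ⟨z, hz, rfl⟩ := h4
        rw [fix_iff hψ h1 hΦ hz]
        refine GG_eq_zero h2 h12 fun k hk => ?_
        exact hmc ⟨z, Metric.ball_subset_closedBall (BB_subset h1 h2 hτ k hk), rfl⟩
      · exact hΦ.id m' h4
  · refine iUnion_subset fun k => ?_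
    intro m hm
    refine ⟨ψ '' BB e₁ e₂ τ k, (hψ.op _ Metric.isOpen_ball (BB_sub4 h1 h2 hτ k)).mem_nhds hm, ?_⟩
    refine (((Finset.range (k + 1)).finite_toSet).image (fun i => ψ (zz e₁ e₂ τ k i))).subset ?_
    rintro _ ⟨⟨z, hz, rfl⟩, hF⟩
    rw [fix_iff hψ h1 hΦ (Metric.ball_subset_closedBall (BB_sub4 h1 h2 hτ k hz))] at hF
    by_contra hcon
    apply (GG_ne_zero h2 h12 τ z).2 _ hF
    refine ⟨k, hz, fun i hi h => hcon ⟨i, ?_, by rw [h]⟩⟩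
    simpa [Nat.lt_succ_iff] using hi

theorem zz_mem (h1 : ‖e₁‖ = 1) {k i : ℕ} : zz e₁ e₂ τ k i ∈ BB e₁ e₂ τ k := by
  unfold zz BB pp
  rw [Metric.mem_ball, dist_eq_norm]
  have e : cc e₂ k + rr k • qq e₁ i + τ k • e₁ - (cc e₂ k + τ k • e₁) = rr k • qq e₁ i := by abel
  have hr := rr_pos k
  rw [e, norm_smul, Real.norm_of_nonneg hr.le]
  have : ‖qq e₁ i‖ < 1 := by
    unfold qq
    rw [norm_smul, h1, mul_one, Real.norm_of_nonneg (by positivity), div_lt_one (by positivity)]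
    have : (0 : ℝ) ≤ i := Nat.cast_nonneg i
    linarith
  calc rr k * ‖qq e₁ i‖ < rr k * 1 := mul_lt_mul_of_pos_left this hr
    _ = rr k := mul_one _

theorem zz_inj (h1 : ‖e₁‖ = 1) {k i j : ℕ} (h : zz e₁ e₂ τ k i = zz e₁ e₂ τ k j) : i = j := by
  have h10 : e₁ ≠ 0 := by
    intro h
    rw [h, norm_zero] at h1
    exact zero_ne_one h1
  unfold zz pp at h
  have h3 : rr k • qq e₁ i = rr k • qq e₁ j := add_left_cancel (add_right_cancel h)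
  have h4 : qq e₁ i = qq e₁ j := smul_right_injective E (rr_pos k).ne' h3
  unfold qq at h4
  have h5 := smul_left_injective ℝ h10 h4
  have h6 : (i : ℝ) + 2 = j + 2 := by
    have := congrArg (fun x : ℝ => x⁻¹) h5
    simpa using this
  have h7 : (i : ℝ) = j := by linarith
  exact_mod_cast h7

theorem count (hψ : EB E M ψ) (h1 : ‖e₁‖ = 1) (h2 : ‖e₂‖ = 1) (h12 : ⟪e₂, e₁⟫_ℝ = 0)
    (hτ : ∀ k, |τ k| ≤ 1 / 2) (hΦ : IsExt ψ (TT e₁ e₂ τ) Φ) (k : ℕ) :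
    (ψ '' BB e₁ e₂ τ k ∩ Fx Φ).ncard = k + 1 := by
  have e : ψ '' BB e₁ e₂ τ k ∩ Fx Φ =
      (fun i => ψ (zz e₁ e₂ τ k i)) '' (Finset.range (k + 1) : Set ℕ) := by
    ext m
    constructor
    · rintro ⟨⟨z, hz, rfl⟩, hF⟩
      rw [fix_iff hψ h1 hΦ (Metric.ball_subset_closedBall (BB_sub4 h1 h2 hτ k hz))] at hF
      by_contra hcon
      apply (GG_ne_zero h2 h12 τ z).2 _ hF
      refine ⟨k, hz, fun i hi h => hcon ⟨i, ?_, by rw [h]⟩⟩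
      simpa [Nat.lt_succ_iff] using hi
    · rintro ⟨i, hi, rfl⟩
      have hz := zz_mem (e₂ := e₂) (τ := τ) h1 (k := k) (i := i)
      refine ⟨⟨_, hz, rfl⟩, ?_⟩
      show ψ (zz e₁ e₂ τ k i) ∈ Fx Φ
      rw [fix_iff hψ h1 hΦ (Metric.ball_subset_closedBall (BB_sub4 h1 h2 hτ k hz)),
        GG_eq h2 h12 τ (inner_of_mem' h2 h12 hz)]
      by_contra hne
      have hi' : i ≤ k := by simpa [Nat.lt_succ_iff] using hi
      exact (ff_ne_zero.1 hne).2 i hi' rfl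
  rw [e, ncard_image_of_injOn]
  · rw [ncard_coe_finset, Finset.card_range]
  · intro i _ j _ h
    refine zz_inj (e₂ := e₂) (τ := τ) h1 (hψ.inj ?_ ?_ h)
    · exact Metric.ball_subset_closedBall (BB_sub4 h1 h2 hτ k (zz_mem h1))
    · exact Metric.ball_subset_closedBall (BB_sub4 h1 h2 hτ k (zz_mem h1))

theorem disj (hψ : EB E M ψ) (h1 : ‖e₁‖ = 1) (h2 : ‖e₂‖ = 1) (h12 : ⟪e₂, e₁⟫_ℝ = 0)
    (hτ : ∀ k, |τ k| ≤ 1 / 2) {k l : ℕ} (hkl : k ≠ l) :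
    Disjoint (ψ '' BB e₁ e₂ τ k) (ψ '' BB e₁ e₂ τ l) := by
  rw [Set.disjoint_left]
  rintro _ ⟨z, hz, rfl⟩ ⟨w, hw, h⟩
  have h3 : w = z := hψ.inj (Metric.ball_subset_closedBall (BB_sub4 h1 h2 hτ l hw))
    (Metric.ball_subset_closedBall (BB_sub4 h1 h2 hτ k hz)) h
  subst h3
  exact hkl (BB_disj h2 h12 hz hw rfl)

theorem center_mem (k : ℕ) : cc e₂ k + τ k • e₁ ∈ BB e₁ e₂ τ k :=
  Metric.mem_ball_self (rr_pos k)

theorem preconn (hψ : EB E M ψ) (h1 : ‖e₁‖ = 1) (h2 : ‖e₂‖ = 1)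
    (hτ : ∀ k, |τ k| ≤ 1 / 2) (k : ℕ) : IsPreconnected (ψ '' BB e₁ e₂ τ k) := by
  refine ((convex_ball _ _).isPreconnected).image ψ fun z hz => ?_
  exact (hψ.cont z (Metric.ball_subset_closedBall
    (BB_sub4 h1 h2 hτ k hz))).continuousWithinAt

theorem step1 (hψ : EB E M ψ) (h1 : ‖e₁‖ = 1) (h2 : ‖e₂‖ = 1) (h12 : ⟪e₂, e₁⟫_ℝ = 0)
    (hM : ∀ m : M, ∀ N ∈ 𝓝 m, N.Infinite)
    (hτ : ∀ k, |τ k| ≤ 1 / 2) (hτ' : ∀ k, |τ' k| ≤ 1 / 2) (hΦ : IsExt ψ (TT e₁ e₂ τ) Φ)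
    (hΦ' : IsExt ψ (TT e₁ e₂ τ') Φ') {h : M ≃ₜ M} (hc : ∀ m, h (Φ m) = Φ' (h m)) (k : ℕ) :
    ∃ l, h '' (ψ '' BB e₁ e₂ τ k) ⊆ ψ '' BB e₁ e₂ τ' l := by
  refine subset_of_preconnected (U := fun l => ψ '' BB e₁ e₂ τ' l)
    (fun l => hψ.op _ Metric.isOpen_ball (BB_sub4 h1 h2 hτ' l))
    (fun i j hij => disj hψ h1 h2 h12 hτ' hij)
    ((preconn hψ h1 h2 hτ k).image h h.continuous.continuousOn)
    ⟨_, _, ⟨_, center_mem k, rfl⟩, rfl⟩ ?_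
  rintro _ ⟨m, hm, rfl⟩
  rw [← W_eq hψ h1 h2 h12 hM hτ' hΦ']
  refine Wx_conj' hc ?_
  rw [W_eq hψ h1 h2 h12 hM hτ hΦ]
  exact mem_iUnion.2 ⟨k, hm⟩

theorem step2 (hψ : EB E M ψ) (h1 : ‖e₁‖ = 1) (h2 : ‖e₂‖ = 1) (h12 : ⟪e₂, e₁⟫_ℝ = 0)
    (hM : ∀ m : M, ∀ N ∈ 𝓝 m, N.Infinite)
    (hτ : ∀ k, |τ k| ≤ 1 / 2) (hτ' : ∀ k, |τ' k| ≤ 1 / 2) (hΦ : IsExt ψ (TT e₁ e₂ τ) Φ)
    (hΦ' : IsExt ψ (TT e₁ e₂ τ') Φ') {h : M ≃ₜ M} (hc : ∀ m, h (Φ m) = Φ' (h m)) (k : ℕ) :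
    h '' (ψ '' BB e₁ e₂ τ k) = ψ '' BB e₁ e₂ τ' k := by
  obtain ⟨l, hl⟩ := step1 hψ h1 h2 h12 hM hτ hτ' hΦ hΦ' hc k
  obtain ⟨k', hk'⟩ := step1 hψ h1 h2 h12 hM hτ' hτ hΦ' hΦ (conj_symm hc) l
  have hkk : k = k' := by
    by_contra hne
    have h3 := disj (τ := τ) hψ h1 h2 h12 hτ hne
    rw [Set.disjoint_left] at h3
    have hm : ψ (cc e₂ k + τ k • e₁) ∈ ψ '' BB e₁ e₂ τ k := ⟨_, center_mem k, rfl⟩
    apply h3 hm
    have h4 := hk' ⟨_, hl ⟨_, hm, rfl⟩, rfl⟩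
    rwa [h.symm_apply_apply] at h4
  subst hkk
  have heq : h '' (ψ '' BB e₁ e₂ τ k) = ψ '' BB e₁ e₂ τ' l := by
    refine Subset.antisymm hl fun m hm => ?_
    exact ⟨h.symm m, hk' ⟨m, hm, rfl⟩, h.apply_symm_apply m⟩
  have h5 : h '' (ψ '' BB e₁ e₂ τ k ∩ Fx Φ) = ψ '' BB e₁ e₂ τ' l ∩ Fx Φ' := by
    rw [← heq]
    ext m
    constructor
    · rintro ⟨m', ⟨a1, a2⟩, rfl⟩
      exact ⟨⟨m', a1, rfl⟩, (Fx_conj hc m').2 a2⟩
    · rintro ⟨⟨m', a1, rfl⟩, a2⟩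
      exact ⟨m', ⟨a1, (Fx_conj hc m').1 a2⟩, rfl⟩
  have h6 := congrArg Set.ncard h5
  rw [ncard_image_of_injective _ h.injective, count hψ h1 h2 h12 hτ hΦ k,
    count hψ h1 h2 h12 hτ' hΦ' l] at h6
  have h7 : k = l := by omega
  rw [heq, h7]

theorem tendsto_cc (e₂ : E) {κ : ℕ → ℕ} (hκ : Tendsto κ atTop atTop) :
    Tendsto (fun N => cc e₂ (κ N)) atTop (𝓝 0) := by
  unfold cc
  have h3 : Tendsto (fun k : ℕ => ((1 : ℝ) / 2) ^ k) atTop (𝓝 0) :=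
    tendsto_pow_atTop_nhds_zero_of_lt_one (by norm_num) (by norm_num)
  have h4 := (h3.comp hκ).smul_const e₂
  rw [zero_smul] at h4
  exact h4

theorem step3 [T2Space M] (hψ : EB E M ψ) (h1 : ‖e₁‖ = 1) (h2 : ‖e₂‖ = 1) (h12 : ⟪e₂, e₁⟫_ℝ = 0)
    (hM : ∀ m : M, ∀ N ∈ 𝓝 m, N.Infinite)
    (hτ : ∀ k, |τ k| ≤ 1 / 2) (hτ' : ∀ k, |τ' k| ≤ 1 / 2) (hΦ : IsExt ψ (TT e₁ e₂ τ) Φ)
    (hΦ' : IsExt ψ (TT e₁ e₂ τ') Φ') {h : M ≃ₜ M} (hc : ∀ m, h (Φ m) = Φ' (h m)) {b : ℝ}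
    (hb : |b| ≤ 1 / 2)
    (hgen : ∀ N : ℕ, ∃ k, N ≤ k ∧ |τ k| ≤ 1 / ((N : ℝ) + 1) ∧ |τ' k - b| ≤ 1 / ((N : ℝ) + 1)) :
    h (ψ 0) = ψ (b • e₁) := by
  choose κ hκ1 hκ2 hκ3 using hgen
  have hκ : Tendsto κ atTop atTop := tendsto_atTop_mono hκ1 tendsto_id
  have hz : Tendsto (fun N : ℕ => 1 / ((N : ℝ) + 1)) atTop (𝓝 0) :=
    tendsto_one_div_add_atTop_nhds_zero_nat
  have hτ0 : Tendsto (fun N => τ (κ N)) atTop (𝓝 0) :=
    squeeze_zero_norm (fun N => by rw [Real.norm_eq_abs]; exact hκ2 N) hz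
  have hτb : Tendsto (fun N => τ' (κ N)) atTop (𝓝 b) := by
    rw [tendsto_iff_norm_sub_tendsto_zero]
    refine squeeze_zero (fun N => norm_nonneg _) (fun N => ?_) hz
    rw [Real.norm_eq_abs]
    exact hκ3 N
  have hcN : Tendsto (fun N => cc e₂ (κ N) + τ (κ N) • e₁) atTop (𝓝 0) := by
    have := (tendsto_cc e₂ hκ).add (hτ0.smul_const e₁)
    simpa using this
  have hmem : ∀ N, ∃ w, w ∈ BB e₁ e₂ τ' (κ N) ∧ ψ w = h (ψ (cc e₂ (κ N) + τ (κ N) • e₁)) := by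
    intro N
    have h3 : h (ψ (cc e₂ (κ N) + τ (κ N) • e₁)) ∈ ψ '' BB e₁ e₂ τ' (κ N) := by
      rw [← step2 hψ h1 h2 h12 hM hτ hτ' hΦ hΦ' hc (κ N)]
      exact ⟨_, ⟨_, center_mem _, rfl⟩, rfl⟩
    obtain ⟨w, hw, he⟩ := h3
    exact ⟨w, hw, he⟩
  choose w hw1 hw2 using hmem
  have hrr : Tendsto (fun N => rr (κ N)) atTop (𝓝 0) := by
    unfold rr
    have h3 : Tendsto (fun k : ℕ => ((1 : ℝ) / 2) ^ k / 8) atTop (𝓝 (0 / 8)) :=
      (tendsto_pow_atTop_nhds_zero_of_lt_one (by norm_num) (by norm_num)).div_const 8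
    rw [zero_div] at h3
    exact h3.comp hκ
  have hwb : Tendsto w atTop (𝓝 (b • e₁)) := by
    have h3 : Tendsto (fun N => w N - (cc e₂ (κ N) + τ' (κ N) • e₁)) atTop (𝓝 0) := by
      refine squeeze_zero_norm (fun N => ?_) hrr
      have := hw1 N
      unfold BB at this
      rw [Metric.mem_ball, dist_eq_norm] at this
      exact this.le
    have h4 := (h3.add (tendsto_cc e₂ hκ)).add (hτb.smul_const e₁)
    have h5 : (0 : E) + 0 + b • e₁ = b • e₁ := by simp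
    rw [h5] at h4
    refine h4.congr fun N => ?_
    abel
  have l1 : Tendsto (fun N => h (ψ (cc e₂ (κ N) + τ (κ N) • e₁))) atTop (𝓝 (h (ψ 0))) := by
    have h3 : ContinuousAt ψ 0 := hψ.cont 0 (by simp)
    exact (h.continuous.tendsto _).comp (h3.tendsto.comp hcN)
  have l2 : Tendsto (fun N => ψ (w N)) atTop (𝓝 (ψ (b • e₁))) := by
    have h3 : ContinuousAt ψ (b • e₁) := by
      refine hψ.cont _ ?_
      rw [mem_closedBall_zero_iff, norm_smul, h1, mul_one, Real.norm_eq_abs]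
      linarith
    exact h3.tendsto.comp hwb
  refine tendsto_nhds_unique l1 (l2.congr fun N => ?_)
  exact hw2 N

theorem not_conj [T2Space M] (hψ : EB E M ψ) (h1 : ‖e₁‖ = 1) (h2 : ‖e₂‖ = 1)
    (h12 : ⟪e₂, e₁⟫_ℝ = 0)
    (hM : ∀ m : M, ∀ N ∈ 𝓝 m, N.Infinite)
    (hτ : ∀ k, |τ k| ≤ 1 / 2) (hτ' : ∀ k, |τ' k| ≤ 1 / 2) (hΦ : IsExt ψ (TT e₁ e₂ τ) Φ)
    (hΦ' : IsExt ψ (TT e₁ e₂ τ') Φ')
    (hg0 : ∀ N : ℕ, ∃ k, N ≤ k ∧ |τ k| ≤ 1 / ((N : ℝ) + 1) ∧ |τ' k - 0| ≤ 1 / ((N : ℝ) + 1))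
    (hg1 : ∀ N : ℕ, ∃ k, N ≤ k ∧ |τ k| ≤ 1 / ((N : ℝ) + 1) ∧
      |τ' k - 1 / 2| ≤ 1 / ((N : ℝ) + 1)) :
    ¬ ∃ h : M ≃ₜ M, ∀ m, h (Φ m) = Φ' (h m) := by
  rintro ⟨h, hc⟩
  have a1 := step3 hψ h1 h2 h12 hM hτ hτ' hΦ hΦ' hc (b := 0) (by norm_num) hg0
  have a2 := step3 hψ h1 h2 h12 hM hτ hτ' hΦ hΦ' hc (b := 1 / 2) (by norm_num) hg1
  rw [a1] at a2
  have h3 := hψ.inj (by simp) (by
    rw [mem_closedBall_zero_iff, norm_smul, h1, mul_one, Real.norm_eq_abs]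
    norm_num) a2
  have h10 : e₁ ≠ 0 := by
    intro h
    rw [h, norm_zero] at h1
    exact zero_ne_one h1
  have h4 := smul_left_injective ℝ h10 h3
  norm_num at h4

end

end Pool.Agent.W922.TB
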