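import Mathlib
import Pool.Agent.W922.TB.Map
import Pool.Agent.W922.PolishD

/-!
# Extension by the identity
-/

set_option autoImplicit false

open Set Filter Topology
open scoped Manifold ContDiff
open Pool.Agent.H410R3.KS Pool.Agent.H410R3.DG

namespace Pool.Agent.W922.TB

set_option linter.unusedSectionVars false

variable {E : Type} [NormedAddCommGroup E] [NormedSpace ℝ E] [FiniteDimensional ℝ E]
  {M : Type} [TopologicalSpace M] [ChartedSpace E M]

theorem mapsTo_of_inj {X : Type*} {T : X → X} (hT : Function.Injective T) {K : Set X}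
    (h : ∀ z, z ∉ K → T z = z) : MapsTo T K K := by
  intro z hz
  by_contra hcon
  have h1 := h _ hcon
  have h2 := hT h1
  rw [h2] at hcon
  exact hcon hz

theorem symm_id {X : Type*} (T : X ≃ X) {K : Set X}
    (h : ∀ z, z ∉ K → T z = z) : ∀ z, z ∉ K → T.symm z = z := by
  intro z hz
  rw [Equiv.symm_apply_eq]
  exact (h z hz).symm

open Classical in
/-- extension by the identity -/
noncomputable def extM (χ : OpenPartialHomeomorph M E) (T : E → E) (m : M) : M :=
  if m ∈ χ.source then χ.symm (T (χ m)) else m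

section

variable {χ : OpenPartialHomeomorph M E} {K : Set E} {T S : E → E}

theorem extM_source (T : E → E) {m : M} (hm : m ∈ χ.source) :
    extM χ T m = χ.symm (T (χ m)) := if_pos hm

theorem extM_not (hT : ∀ z, z ∉ K → T z = z) {m : M} (hm : m ∉ χ.symm '' K) :
    extM χ T m = m := by
  by_cases h : m ∈ χ.source
  · rw [extM_source T h, hT, χ.left_inv h]
    intro hK
    exact hm ⟨χ m, hK, χ.left_inv h⟩
  · exact if_neg h

theorem target_of (hK : K ⊆ χ.target) (hT : ∀ z, z ∉ K → T z = z) (hTK : MapsTo T K K) {z : E}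
    (hz : z ∈ χ.target) : T z ∈ χ.target := by
  by_cases h : z ∈ K
  · exact hK (hTK h)
  · rw [hT z h]; exact hz

theorem extM_mem (hK : K ⊆ χ.target) (hT : ∀ z, z ∉ K → T z = z) (hTK : MapsTo T K K) {m : M}
    (hm : m ∈ χ.source) : extM χ T m ∈ χ.source := by
  rw [extM_source T hm]
  exact χ.map_target (target_of hK hT hTK (χ.map_source hm))

theorem chart_extM (hK : K ⊆ χ.target) (hT : ∀ z, z ∉ K → T z = z) (hTK : MapsTo T K K) {m : M}
    (hm : m ∈ χ.source) : χ (extM χ T m) = T (χ m) := by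
  rw [extM_source T hm]
  exact χ.right_inv (target_of hK hT hTK (χ.map_source hm))

theorem extM_symm {z : E} (h : z ∈ χ.target) :
    extM χ T (χ.symm z) = χ.symm (T z) := by
  rw [extM_source T (χ.map_target h), χ.right_inv h]

theorem extM_comp (hK : K ⊆ χ.target) (hS : ∀ z, z ∉ K → S z = z) (hSK : MapsTo S K K) (m : M) :
    extM χ T (extM χ S m) = extM χ (T ∘ S) m := by
  by_cases h : m ∈ χ.source
  · rw [extM_source T (extM_mem hK hS hSK h), chart_extM hK hS hSK h, extM_source _ h]
    rfl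
  · have h1 : extM χ S m = m := if_neg h
    rw [h1]
    have h2 : extM χ T m = m := if_neg h
    have h3 : extM χ (T ∘ S) m = m := if_neg h
    rw [h2, h3]

theorem extM_id' (m : M) : extM χ (fun z => z) m = m := by
  by_cases h : m ∈ χ.source
  · rw [extM_source _ h, χ.left_inv h]
  · exact if_neg h

/-- extension of equivalences -/
noncomputable def extE (hK : K ⊆ χ.target) (T : E ≃ E) (hT : ∀ z, z ∉ K → T z = z) : M ≃ M where
  toFun := extM χ T
  invFun := extM χ T.symm
  left_inv m := by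
    rw [extM_comp hK hT (mapsTo_of_inj T.injective hT)]
    have : (T.symm ∘ T : E → E) = fun z => z := by funext z; simp
    rw [this, extM_id']
  right_inv m := by
    rw [extM_comp hK (symm_id T hT) (mapsTo_of_inj T.symm.injective (symm_id T hT))]
    have : (T ∘ T.symm : E → E) = fun z => z := by funext z; simp
    rw [this, extM_id']

theorem isClosed_image [T2Space M] (hK : K ⊆ χ.target) (hKc : IsCompact K) :
    IsClosed (χ.symm '' K) :=
  (hKc.image_of_continuousOn (χ.continuousOn_symm.mono hK)).isClosed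

theorem continuous_extM {X : Type*} [TopologicalSpace X] [T2Space M] (hK : K ⊆ χ.target)
    (hKc : IsCompact K) {T : X → E → E} (hT : ∀ x z, z ∉ K → T x z = z)
    (hTK : ∀ x, MapsTo (T x) K K) (hc : Continuous (fun q : X × E => T q.1 q.2)) :
    Continuous (fun q : X × M => extM χ (T q.1) q.2) := by
  rw [continuous_iff_continuousAt]
  rintro ⟨x, m⟩
  by_cases h : m ∈ χ.source
  · have h1 : ContinuousAt (fun q : X × M => T q.1 (χ q.2)) (x, m) := by
      have h2 : ContinuousAt (fun q : X × M => (q.1, χ q.2)) (x, m) :=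
        continuousAt_fst.prodMk ((χ.continuousAt h).comp continuousAt_snd)
      exact ContinuousAt.comp (g := fun q : X × E => T q.1 q.2) hc.continuousAt h2
    have h3 : ContinuousAt (fun q : X × M => χ.symm (T q.1 (χ q.2))) (x, m) :=
      ContinuousAt.comp (g := χ.symm) (χ.continuousAt_symm
        (target_of hK (hT x) (hTK x) (χ.map_source h))) h1
    refine h3.congr ?_
    have h4 : ∀ᶠ q : X × M in 𝓝 (x, m), q.2 ∈ χ.source :=
      continuousAt_snd.eventually (χ.open_source.mem_nhds h)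
    filter_upwards [h4] with q hq
    exact (extM_source _ hq).symm
  · have h1 : m ∉ χ.symm '' K := by
      rintro ⟨z, hz, rfl⟩
      exact h (χ.map_target (hK hz))
    have h2' : ∀ᶠ m' : M in 𝓝 m, m' ∉ χ.symm '' K :=
      (isClosed_image hK hKc).isOpen_compl.mem_nhds h1
    have h2'' : Tendsto (fun q : X × M => q.2) (𝓝 (x, m)) (𝓝 m) := continuousAt_snd
    have h2 : ∀ᶠ q : X × M in 𝓝 (x, m), q.2 ∉ χ.symm '' K := h2''.eventually h2'
    refine continuousAt_snd.congr ?_
    filter_upwards [h2] with q hq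
    exact (extM_not (hT q.1) hq).symm

theorem continuous_extM' [T2Space M] (hK : K ⊆ χ.target)
    (hKc : IsCompact K) (hT : ∀ z, z ∉ K → T z = z)
    (hTK : MapsTo T K K) (hc : Continuous T) :
    Continuous (extM χ T) := by
  have h := continuous_extM (X := Unit) (T := fun _ => T) hK hKc (fun _ => hT) (fun _ => hTK)
    (by fun_prop)
  exact h.comp (f := fun m => ((), m)) (by fun_prop)

end

section Smooth

variable [IsManifold 𝓘(ℝ, E) ∞ M] {K : Set E} {T : E → E} {m₀ : M}

theorem contMDiff_extM [T2Space M] (hK : K ⊆ (chartAt E m₀).target)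
    (hKc : IsCompact K) (hT : ∀ z, z ∉ K → T z = z)
    (hTK : MapsTo T K K) (hc : ContDiff ℝ ∞ T) (r : ℕ∞) :
    ContMDiff 𝓘(ℝ, E) 𝓘(ℝ, E) r (extM (chartAt E m₀) T) := by
  have h0 : ContMDiff 𝓘(ℝ, E) 𝓘(ℝ, E) ∞ (extM (chartAt E m₀) T) := by
    intro m
    by_cases h : m ∈ (chartAt E m₀).source
    · have h1 : ContMDiffAt 𝓘(ℝ, E) 𝓘(ℝ, E) ∞ (chartAt E m₀) m := by
        have := (contMDiffOn_chart (I := 𝓘(ℝ, E)) (n := ∞) (x := m₀)).contMDiffAt
          ((chartAt E m₀).open_source.mem_nhds h)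
        exact this
      have h2 : ContMDiffAt 𝓘(ℝ, E) 𝓘(ℝ, E) ∞ (T ∘ chartAt E m₀) m :=
        hc.contMDiff.contMDiffAt.comp m h1
      have ht := target_of hK hT hTK ((chartAt E m₀).map_source h)
      have h3 : ContMDiffAt 𝓘(ℝ, E) 𝓘(ℝ, E) ∞ (chartAt E m₀).symm (T (chartAt E m₀ m)) := by
        have := (contMDiffOn_chart_symm (I := 𝓘(ℝ, E)) (n := ∞) (x := m₀)).contMDiffAt
          ((chartAt E m₀).open_target.mem_nhds ht)
        exact this
      have h4 : ContMDiffAt 𝓘(ℝ, E) 𝓘(ℝ, E) ∞
          ((chartAt E m₀).symm ∘ (T ∘ chartAt E m₀)) m := h3.comp m h2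
      refine h4.congr_of_eventuallyEq ?_
      filter_upwards [(chartAt E m₀).open_source.mem_nhds h] with q hq
      exact extM_source _ hq
    · have h1 : m ∉ (chartAt E m₀).symm '' K := by
        rintro ⟨z, hz, rfl⟩
        exact h ((chartAt E m₀).map_target (hK hz))
      refine contMDiffAt_id.congr_of_eventuallyEq ?_
      filter_upwards [(isClosed_image hK hKc).isOpen_compl.mem_nhds h1] with q hq
      exact extM_not hT hq
  exact h0.of_le (by exact_mod_cast le_top)

theorem jetM_extM {X : Type*} [TopologicalSpace X] [T2Space M] (hK : K ⊆ (chartAt E m₀).target)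
    (hKc : IsCompact K) {T : X → E → E} (hT : ∀ x z, z ∉ K → T x z = z)
    (hTK : ∀ x, MapsTo (T x) K K) (hj : ∀ p, JetAt ⊤ T p) (r : ℕ∞) :
    JetM E r (fun x => extM (chartAt E m₀) (T x)) := by
  intro x y f w hw hfw
  refine jetAt_mono le_top ?_
  set χ := chartAt E m₀ with hχ
  set z := (chartAt E x).symm w with hz
  have hcid : ∀ x y : M, ContDiffOn ℝ ∞ (localRep 𝓘(ℝ, E) x y (fun m => m))
      {w | w ∈ (chartAt E x).target ∧ (chartAt E x).symm w ∈ (chartAt E y).source} :=
    fun x y => contDiffOn_localRep (r := ⊤) x y (f := fun m => m) contMDiff_id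
  have hoid : ∀ x y : M, IsOpen
      {w | w ∈ (chartAt E x).target ∧ (chartAt E x).symm w ∈ (chartAt E y).source} :=
    fun x y => isOpen_dom x y (f := fun m => m) continuous_id
  by_cases h : z ∈ χ.source
  · -- in the chart
    have hzf : T f (χ z) ∈ χ.target := target_of hK (hT f) (hTK f) (χ.map_source h)
    have hev : extM χ (T f) z = χ.symm (T f (χ z)) := extM_source _ h
    have hfw' : χ.symm (T f (χ z)) ∈ (chartAt E y).source := by
      rw [← hev]; exact hfw
    have j1 : JetAt ⊤ (fun _ : X => localRep 𝓘(ℝ, E) x m₀ (fun m => m)) (f, w) :=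
      jetAt_const (hoid x m₀) (hcid x m₀) ⟨hw, h⟩
    have e1 : localRep 𝓘(ℝ, E) x m₀ (fun m => m) w = χ z := localRep_eq _ _ _ _
    have j2 : JetAt ⊤ (fun f => T f ∘ localRep 𝓘(ℝ, E) x m₀ (fun m => m)) (f, w) :=
      JetAt.comp (hj _) j1
    have j3 : JetAt ⊤ (fun f => localRep 𝓘(ℝ, E) m₀ y (fun m => m) ∘
        (T f ∘ localRep 𝓘(ℝ, E) x m₀ (fun m => m))) (f, w) := by
      refine JetAt.comp (u := fun _ : X => localRep 𝓘(ℝ, E) m₀ y (fun m => m)) ?_ j2
      refine jetAt_const (hoid m₀ y) (hcid m₀ y) ?_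
      show T f (localRep 𝓘(ℝ, E) x m₀ (fun m => m) w) ∈ (chartAt E m₀).target ∧ _
      refine ⟨?_, ?_⟩
      · rw [e1]; exact hzf
      · show (chartAt E m₀).symm (T f (localRep 𝓘(ℝ, E) x m₀ (fun m => m) w)) ∈ _
        rw [e1]; exact hfw'
    refine j3.congr ?_
    have h5 : ∀ᶠ v : E in 𝓝 w, v ∈ (chartAt E x).target ∧
        (chartAt E x).symm v ∈ (chartAt E m₀).source := (hoid x m₀).mem_nhds ⟨hw, h⟩
    have h6 : ∀ᶠ q : X × E in 𝓝 (f, w), ∀ᶠ v in 𝓝 q.2, v ∈ (chartAt E x).target ∧
        (chartAt E x).symm v ∈ (chartAt E m₀).source :=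
      continuousAt_snd.eventually (eventually_eventually_nhds.2 h5)
    filter_upwards [h6] with q hq
    filter_upwards [hq] with v hv
    simp only [Function.comp, localRep_eq]
    rw [extM_source _ hv.2]
  · have h1 : z ∉ χ.symm '' K := by
      rintro ⟨z', hz', he⟩
      rw [← he] at h
      exact h (χ.map_target (hK hz'))
    have hev : extM χ (T f) z = z := extM_not (hT f) h1
    have hzy : z ∈ (chartAt E y).source := by
      rw [← hev]; exact hfw
    have j1 : JetAt ⊤ (fun _ : X => localRep 𝓘(ℝ, E) x y (fun m => m)) (f, w) :=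
      jetAt_const (hoid x y) (hcid x y) ⟨hw, hzy⟩
    refine j1.congr ?_
    have h5 : ∀ᶠ v : E in 𝓝 w, (chartAt E x).symm v ∉ χ.symm '' K :=
      ((chartAt E x).continuousAt_symm hw).eventually
        ((isClosed_image hK hKc).isOpen_compl.mem_nhds h1)
    have h6 : ∀ᶠ q : X × E in 𝓝 (f, w), ∀ᶠ v in 𝓝 q.2,
        (chartAt E x).symm v ∉ χ.symm '' K :=
      continuousAt_snd.eventually (eventually_eventually_nhds.2 h5)
    filter_upwards [h6] with q hq
    filter_upwards [hq] with v hv
    simp only [localRep_eq]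
    rw [extM_not (hT q.1) hv]

theorem continuous_family {X : Type*} [TopologicalSpace X] [CompactSpace M] [T2Space M] {r : ℕ∞}
    (F : X → DiffR 𝓘(ℝ, E) M r) (hev : Continuous (fun q : X × M => (F q.1).map q.2))
    (hj : JetM E r (fun x => (F x).map)) :
    @Continuous X (DiffR 𝓘(ℝ, E) M r) _ (crTopology 𝓘(ℝ, E) M r) F := by
  obtain ⟨ι, hι, e, he, hle⟩ := exists_emb E M
  obtain ⟨ρ, t, hρ, ht⟩ := exists_cover E M
  have e1 : crTopology 𝓘(ℝ, E) M r = TopologicalSpace.induced
      (fun f : DiffR 𝓘(ℝ, E) M r => JMap t he hρ (toCR f)) inferInstance :=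
    le_antisymm (cr_le_J he hρ r t) (J_le_cr t he hρ hle ht)
  rw [e1]
  exact continuous_induced_rng.2 (continuous_J t he hρ (fun x => toCR (F x)) hev hj)

end Smooth

end Pool.Agent.W922.TB
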