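import Mathlib
import Pool.Agent.W922.TB.Conj
import Pool.Agent.W922.TB.Ext
import Pool.Agent.H468R2.KA.P_F_perm
import Pool.Agent.H468R2.KA.P_F_top
import Pool.Agent.H468R2.KA.P_F_vt
import Pool.Agent.H468R2.MA.P_T_BF
import Pool.Agent.H468R2.MA.P_T_C
import Pool.Agent.H468R2.MA.P_T_CH
import Pool.Agent.H468R2.MA.P_T_LOC
import Pool.Agent.H468R2.MA.P_T_LOC1
import Pool.Agent.H468R2.MA.P_T_SC

/-!
# Topological conjugacy is not reducible to actions of `S_∞`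
-/

set_option autoImplicit false

open Set Filter Topology
open scoped Manifold ContDiff InnerProductSpace
open Pool.Agent.H410R3.KS Pool.Agent.H410R3.DG

namespace Pool.Agent.W922.TB

set_option linter.unusedSectionVars false

/-! ### Clamp -/

/-- clamp to `[0, 1/2]` -/
noncomputable def th (t : ℝ) : ℝ := max 0 (min t (1 / 2))

theorem th_cont : Continuous th := by
  unfold th
  fun_prop

theorem th_nonneg (t : ℝ) : 0 ≤ th t := le_max_left _ _

theorem th_le (t : ℝ) : th t ≤ 1 / 2 := max_le (by norm_num) (min_le_right _ _)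

theorem th_abs (t : ℝ) : |th t| ≤ 1 / 2 := by
  rw [abs_of_nonneg (th_nonneg t)]
  exact th_le t

theorem th_sub (s t : ℝ) : |th s - th t| ≤ 1 / 2 := by
  rw [abs_le]
  constructor <;> linarith [th_nonneg s, th_nonneg t, th_le s, th_le t]

theorem th_lip (s t : ℝ) : |th s - th t| ≤ |s - t| := by
  unfold th
  refine (abs_max_sub_max_le_max _ _ _ _).trans ?_
  rw [sub_self, abs_zero]
  refine max_le (abs_nonneg _) ?_
  refine (abs_min_sub_min_le_max _ _ _ _).trans ?_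
  rw [sub_self, abs_zero]
  exact max_le le_rfl (abs_nonneg _)

theorem th_zero : th 0 = 0 := by unfold th; norm_num

theorem th_half : th (1 / 2) = 1 / 2 := by unfold th; norm_num

/-! ### Generic pairs -/

/-- the open sets -/
def Gs (b : ℝ) (N : ℕ) : Set ((ℕ → ℝ) × (ℕ → ℝ)) :=
  {p | ∃ k, N ≤ k ∧ |p.1 k| < 1 / ((N : ℝ) + 1) ∧ |p.2 k - b| < 1 / ((N : ℝ) + 1)}

theorem open_Gs (b : ℝ) (N : ℕ) : IsOpen (Gs b N) := by
  have h : Gs b N = ⋃ k ∈ {k | N ≤ k}, ({p | |p.1 k| < 1 / ((N : ℝ) + 1)} ∩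
      {p | |p.2 k - b| < 1 / ((N : ℝ) + 1)}) := by
    ext p
    simp only [Gs, Set.mem_setOf_eq, Set.mem_iUnion, Set.mem_inter_iff, exists_prop]
  rw [h]
  refine isOpen_biUnion fun k _ => IsOpen.inter ?_ ?_
  · exact isOpen_lt (((continuous_apply k).comp continuous_fst).abs) continuous_const
  · exact isOpen_lt ((((continuous_apply k).comp continuous_snd).sub continuous_const).abs)
      continuous_const

theorem tendsto_update (x : ℕ → ℝ) (c : ℝ) :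
    Tendsto (fun k => Function.update x k c) atTop (𝓝 x) := by
  rw [tendsto_pi_nhds]
  intro i
  refine tendsto_const_nhds.congr' ?_
  filter_upwards [eventually_gt_atTop i] with k hk
  rw [Function.update_of_ne hk.ne]

theorem dense_Gs (b : ℝ) (N : ℕ) : Dense (Gs b N) := by
  rintro ⟨x, y⟩
  have h := (tendsto_update x 0).prodMk_nhds (tendsto_update y b)
  refine mem_closure_of_tendsto h ?_
  filter_upwards [eventually_ge_atTop N] with k hk
  have hN : (0 : ℝ) < 1 / ((N : ℝ) + 1) := by positivity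
  refine ⟨k, hk, ?_, ?_⟩
  · simp only [Function.update_self, abs_zero]
    exact hN
  · simp only [Function.update_self, sub_self, abs_zero]
    exact hN

theorem exists_gen {C : Set (ℕ → ℝ)} (hC : C ∈ residual (ℕ → ℝ)) :
    ∃ x ∈ C, ∃ y ∈ C,
      (∀ N : ℕ, ∃ k, N ≤ k ∧ |th (x k)| ≤ 1 / ((N : ℝ) + 1) ∧
        |th (y k) - 0| ≤ 1 / ((N : ℝ) + 1)) ∧
      (∀ N : ℕ, ∃ k, N ≤ k ∧ |th (x k)| ≤ 1 / ((N : ℝ) + 1) ∧
        |th (y k) - 1 / 2| ≤ 1 / ((N : ℝ) + 1)) := by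
  have h1 : (Prod.fst : (ℕ → ℝ) × (ℕ → ℝ) → (ℕ → ℝ)) ⁻¹' C ∈ residual ((ℕ → ℝ) × (ℕ → ℝ)) :=
    tendsto_residual_of_isOpenMap continuous_fst isOpenMap_fst hC
  have h2 : (Prod.snd : (ℕ → ℝ) × (ℕ → ℝ) → (ℕ → ℝ)) ⁻¹' C ∈ residual ((ℕ → ℝ) × (ℕ → ℝ)) :=
    tendsto_residual_of_isOpenMap continuous_snd isOpenMap_snd hC
  have h3 : ∀ b, (⋂ N, Gs b N) ∈ residual ((ℕ → ℝ) × (ℕ → ℝ)) := fun b =>
    countable_iInter_mem.2 fun N => residual_of_dense_open (open_Gs b N) (dense_Gs b N)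
  have h4 := dense_of_mem_residual (inter_mem (inter_mem h1 h2) (inter_mem (h3 0) (h3 (1 / 2))))
  obtain ⟨p, ⟨⟨hp1, hp2⟩, hp3, hp4⟩⟩ := h4.nonempty
  have key : ∀ b, th b = b → p ∈ (⋂ N, Gs b N) → ∀ N : ℕ, ∃ k, N ≤ k ∧
      |th (p.1 k)| ≤ 1 / ((N : ℝ) + 1) ∧ |th (p.2 k) - b| ≤ 1 / ((N : ℝ) + 1) := by
    intro b hb hp N
    obtain ⟨k, hk, ha, hb'⟩ := Set.mem_iInter.1 hp N
    refine ⟨k, hk, ?_, ?_⟩
    · have := th_lip (p.1 k) 0
      rw [th_zero, sub_zero, sub_zero] at this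
      exact this.trans ha.le
    · have := th_lip (p.2 k) b
      rw [hb] at this
      exact this.trans hb'.le
  exact ⟨p.1, hp1, p.2, hp2, key 0 th_zero hp3, key (1 / 2) th_half hp4⟩

/-! ### The affine map -/

section Aff

variable {E : Type} [NormedAddCommGroup E] [NormedSpace ℝ E]

/-- the affine map `z ↦ a + ρ z` -/
noncomputable def AE (a : E) {ρ : ℝ} (hρ : 0 < ρ) : E ≃ₜ E where
  toFun z := a + ρ • z
  invFun w := ρ⁻¹ • (w - a)
  left_inv z := by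
    simp only [add_sub_cancel_left]
    rw [smul_smul, inv_mul_cancel₀ hρ.ne', one_smul]
  right_inv w := by
    simp only
    rw [smul_smul, mul_inv_cancel₀ hρ.ne', one_smul]
    abel
  continuous_toFun := by fun_prop
  continuous_invFun := by fun_prop

theorem AE_apply (a : E) {ρ : ℝ} (hρ : 0 < ρ) (z : E) : AE a hρ z = a + ρ • z := rfl

theorem AE_symm_apply (a : E) {ρ : ℝ} (hρ : 0 < ρ) (w : E) :
    (AE a hρ).symm w = ρ⁻¹ • (w - a) := rfl

theorem AE_mem (a : E) {ρ : ℝ} (hρ : 0 < ρ) (z : E) :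
    AE a hρ z ∈ Metric.closedBall a (4 * ρ) ↔ z ∈ Metric.closedBall (0 : E) 4 := by
  rw [Metric.mem_closedBall, dist_eq_norm, AE_apply, add_sub_cancel_left, norm_smul,
    Real.norm_of_nonneg hρ.le, mem_closedBall_zero_iff, mul_comm, mul_le_mul_iff_left₀ hρ]

theorem AE_contDiff (a : E) {ρ : ℝ} (hρ : 0 < ρ) : ContDiff ℝ ∞ (AE a hρ) := by
  show ContDiff ℝ ∞ (fun z => a + ρ • z)
  fun_prop

theorem AE_symm_contDiff (a : E) {ρ : ℝ} (hρ : 0 < ρ) : ContDiff ℝ ∞ (AE a hρ).symm := by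
  show ContDiff ℝ ∞ (fun w => ρ⁻¹ • (w - a))
  fun_prop

/-- conjugate by the affine map -/
noncomputable def cj (a : E) {ρ : ℝ} (hρ : 0 < ρ) (T : E ≃ E) : E ≃ E :=
  (AE a hρ).toEquiv.symm.trans (T.trans (AE a hρ).toEquiv)

theorem cj_apply (a : E) {ρ : ℝ} (hρ : 0 < ρ) (T : E ≃ E) (w : E) :
    cj a hρ T w = AE a hρ (T ((AE a hρ).symm w)) := rfl

theorem cj_AE (a : E) {ρ : ℝ} (hρ : 0 < ρ) (T : E ≃ E) (z : E) :
    cj a hρ T (AE a hρ z) = AE a hρ (T z) := by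
  rw [cj_apply, Homeomorph.symm_apply_apply]

theorem cj_symm_apply (a : E) {ρ : ℝ} (hρ : 0 < ρ) (T : E ≃ E) (w : E) :
    (cj a hρ T).symm w = AE a hρ (T.symm ((AE a hρ).symm w)) := rfl

theorem cj_id (a : E) {ρ : ℝ} (hρ : 0 < ρ) {T : E ≃ E}
    (hT : ∀ z, z ∉ Metric.closedBall (0 : E) 4 → T z = z) :
    ∀ w, w ∉ Metric.closedBall a (4 * ρ) → cj a hρ T w = w := by
  intro w hw
  rw [cj_apply, hT, Homeomorph.apply_symm_apply]
  intro h
  apply hw
  rw [← AE_mem a hρ, Homeomorph.apply_symm_apply] at h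
  exact h

end Aff

section Jet

variable {Z Z' : Type*} [TopologicalSpace Z] [TopologicalSpace Z'] {E F : Type*}
  [NormedAddCommGroup E] [NormedSpace ℝ E] [NormedAddCommGroup F] [NormedSpace ℝ F]

theorem jetAt_param {r : ℕ∞} {u : Z → E → F} {g : Z' → Z} (hg : Continuous g) {p : Z' × E}
    (h : JetAt r u (g p.1, p.2)) : JetAt r (fun ζ => u (g ζ)) p := by
  have hc : ContinuousAt (fun q : Z' × E => (g q.1, q.2)) p :=
    (hg.continuousAt.comp continuousAt_fst).prodMk continuousAt_snd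
  refine ⟨hc.eventually h.1, fun j hj => ?_⟩
  exact ContinuousAt.comp (f := fun q : Z' × E => (g q.1, q.2))
    (g := fun q : Z × E => iteratedFDeriv ℝ j (u q.1) q.2) (h.2 j hj) hc

end Jet

/-! ### The family on the manifold -/

section Main

variable {E : Type} [NormedAddCommGroup E] [InnerProductSpace ℝ E] [FiniteDimensional ℝ E]
  {M : Type} [TopologicalSpace M] [ChartedSpace E M]

theorem TH_id {e₁ : E} (h1 : ‖e₁‖ = 1) {e₂ : E} (h2 : ‖e₂‖ = 1) (h12 : ⟪e₂, e₁⟫_ℝ = 0)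
    {τ : ℕ → ℝ} (hτ : ∀ k, |τ k| ≤ 1 / 2) :
    ∀ z, z ∉ Metric.closedBall (0 : E) 4 → (TH h1 e₂ τ).toEquiv z = z := by
  intro z hz
  show TT e₁ e₂ τ z = z
  refine (TT_eq_self h1 τ z).2 (GG_eq_zero h2 h12 fun k hk => hz ?_)
  exact Metric.ball_subset_closedBall (BB_sub4 h1 h2 hτ k hk)

/-- the embedded ball -/
noncomputable def psi (m₀ : M) (a : E) {ρ : ℝ} (hρ : 0 < ρ) (z : E) : M :=
  (chartAt E m₀).symm (AE a hρ z)

theorem EB_psi [T2Space M] {m₀ : M} {a : E} {ρ : ℝ} (hρ : 0 < ρ)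
    (hK : Metric.closedBall a (4 * ρ) ⊆ (chartAt E m₀).target) :
    EB E M (psi m₀ a hρ) where
  inj := by
    intro z hz w hw h
    have h1 := hK ((AE_mem a hρ z).2 hz)
    have h2 := hK ((AE_mem a hρ w).2 hw)
    exact (AE a hρ).injective ((chartAt E m₀).symm.injOn h1 h2 h)
  cont := by
    intro z hz
    have h1 := hK ((AE_mem a hρ z).2 hz)
    exact ((chartAt E m₀).continuousAt_symm h1).comp (AE a hρ).continuous.continuousAt
  op := by
    intro O hO hOs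
    have h1 : IsOpen (AE a hρ '' O) := (AE a hρ).isOpenMap O hO
    have h2 : AE a hρ '' O ⊆ (chartAt E m₀).target := by
      rintro _ ⟨z, hz, rfl⟩
      exact hK ((AE_mem a hρ z).2 (Metric.ball_subset_closedBall (hOs hz)))
    have h3 := (chartAt E m₀).isOpen_image_symm_of_subset_target h1 h2
    rw [← image_comp] at h3
    exact h3
  cl := by
    have h1 : IsCompact (Metric.closedBall (0 : E) 2) := isCompact_closedBall _ _
    refine (h1.image_of_continuousOn fun z hz => ?_).isClosed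
    have h2 := hK ((AE_mem a hρ z).2 (Metric.closedBall_subset_closedBall (by norm_num) hz))
    exact (((chartAt E m₀).continuousAt_symm h2).comp
      (AE a hρ).continuous.continuousAt).continuousWithinAt

theorem isExt_psi {m₀ : M} {a : E} {ρ : ℝ} (hρ : 0 < ρ)
    (hK : Metric.closedBall a (4 * ρ) ⊆ (chartAt E m₀).target) {T : E ≃ E}
    (hT : ∀ z, z ∉ Metric.closedBall (0 : E) 4 → T z = z) :
    IsExt (psi m₀ a hρ) T (extM (chartAt E m₀) (cj a hρ T)) where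
  maps := mapsTo_of_inj T.injective hT
  eq := by
    intro z hz
    have h1 := hK ((AE_mem a hρ z).2 hz)
    unfold psi
    rw [extM_symm h1, cj_AE]
  id := by
    intro m hm
    refine extM_not (cj_id a hρ hT) ?_
    rintro ⟨w, hw, rfl⟩
    apply hm
    refine ⟨(AE a hρ).symm w, ?_, ?_⟩
    · rw [← AE_mem a hρ, Homeomorph.apply_symm_apply]
      exact hw
    · unfold psi
      rw [Homeomorph.apply_symm_apply]

theorem infinite_nhd [Nontrivial E] (m : M) : ∀ N ∈ 𝓝 m, N.Infinite := by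
  intro N hN
  set χ := chartAt E m
  have hm : m ∈ χ.source := mem_chart_source E m
  have h1 : χ.symm ⁻¹' N ∈ 𝓝 (χ m) := by
    have h2 : ContinuousAt χ.symm (χ m) := χ.continuousAt_symm (χ.map_source hm)
    apply h2
    rw [χ.left_inv hm]
    exact hN
  have h2 : χ.symm ⁻¹' N ∩ χ.target ∈ 𝓝 (χ m) :=
    inter_mem h1 (χ.open_target.mem_nhds (χ.map_source hm))
  have _ : NeBot (𝓝[≠] (χ m)) := Module.punctured_nhds_neBot ℝ E (χ m)
  have h3 : (χ.symm ⁻¹' N ∩ χ.target).Infinite := infinite_of_mem_nhds (χ m) h2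
  refine (h3.image (χ.symm.injOn.mono inter_subset_right)).mono ?_
  rintro _ ⟨w, ⟨hw, -⟩, rfl⟩
  exact hw

variable [IsManifold 𝓘(ℝ, E) ∞ M]

/-- the family of diffeomorphisms -/
noncomputable def Fam [T2Space M] {m₀ : M} {a : E} {ρ : ℝ} (hρ : 0 < ρ)
    (hK : Metric.closedBall a (4 * ρ) ⊆ (chartAt E m₀).target) {e₁ : E} (h1 : ‖e₁‖ = 1) {e₂ : E}
    (h2 : ‖e₂‖ = 1) (h12 : ⟪e₂, e₁⟫_ℝ = 0) (r : ℕ∞) (x : ℕ → ℝ) : DiffR 𝓘(ℝ, E) M r where
  toEquiv := extE hK (cj a hρ (TH h1 e₂ (fun k => th (x k))).toEquiv)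
    (cj_id a hρ (TH_id h1 h2 h12 (fun k => th_abs (x k))))
  contMDiff_toFun := by
    have hid := cj_id a hρ (TH_id h1 h2 h12 (fun k => th_abs (x k)))
    refine contMDiff_extM hK (isCompact_closedBall _ _) hid
      (mapsTo_of_inj (cj a hρ (TH h1 e₂ (fun k => th (x k))).toEquiv).injective hid) ?_ r
    exact (AE_contDiff a hρ).comp ((contDiff_TT e₁ e₂ _).comp (AE_symm_contDiff a hρ))
  contMDiff_invFun := by
    have hid := symm_id _ (cj_id a hρ (TH_id h1 h2 h12 (fun k => th_abs (x k))))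
    refine contMDiff_extM hK (isCompact_closedBall _ _) hid
      (mapsTo_of_inj (cj a hρ (TH h1 e₂ (fun k => th (x k))).toEquiv).symm.injective hid) ?_ r
    exact (AE_contDiff a hρ).comp ((contDiff_TH_symm h1 e₂ _).comp (AE_symm_contDiff a hρ))

section

variable [T2Space M] {m₀ : M} {a : E} {ρ : ℝ} (hρ : 0 < ρ)
    (hK : Metric.closedBall a (4 * ρ) ⊆ (chartAt E m₀).target) {e₁ : E} (h1 : ‖e₁‖ = 1) {e₂ : E}
    (h2 : ‖e₂‖ = 1) (h12 : ⟪e₂, e₁⟫_ℝ = 0) (r : ℕ∞)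

theorem Fam_map (x : ℕ → ℝ) : (Fam hρ hK h1 h2 h12 r x).map =
    extM (chartAt E m₀) (cj a hρ (TH h1 e₂ (fun k => th (x k))).toEquiv) := rfl

theorem jet_fam (p : (ℕ → ℝ) × E) : JetAt ⊤ (fun x : ℕ → ℝ =>
    (cj a hρ (TH h1 e₂ (fun k => th (x k))).toEquiv : E → E)) p := by
  have hg : Continuous (fun x : ℕ → ℝ => fun k => th (x k)) :=
    continuous_pi fun k => th_cont.comp (continuous_apply k)
  have j1 : JetAt ⊤ (fun _ : ℕ → ℝ => ((AE a hρ).symm : E → E)) p :=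
    jetAt_const isOpen_univ (AE_symm_contDiff a hρ).contDiffOn (mem_univ _)
  have j2 : JetAt ⊤ (fun x : ℕ → ℝ => TT e₁ e₂ (fun k => th (x k)) ∘ (AE a hρ).symm) p :=
    JetAt.comp (u := fun x : ℕ → ℝ => TT e₁ e₂ (fun k => th (x k)))
      (jetAt_param hg (jet_TT e₁ e₂ _ _)) j1
  exact JetAt.comp (u := fun _ : ℕ → ℝ => (AE a hρ : E → E))
    (jetAt_const isOpen_univ (AE_contDiff a hρ).contDiffOn (mem_univ _)) j2

theorem continuous_Fam [CompactSpace M] :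
    @Continuous (ℕ → ℝ) (DiffR 𝓘(ℝ, E) M r) _ (crTopology 𝓘(ℝ, E) M r)
      (Fam hρ hK h1 h2 h12 r) := by
  have hid : ∀ x : ℕ → ℝ, ∀ w, w ∉ Metric.closedBall a (4 * ρ) →
      cj a hρ (TH h1 e₂ (fun k => th (x k))).toEquiv w = w :=
    fun x => cj_id a hρ (TH_id h1 h2 h12 (fun k => th_abs (x k)))
  have hmt : ∀ x : ℕ → ℝ, MapsTo (cj a hρ (TH h1 e₂ (fun k => th (x k))).toEquiv)
      (Metric.closedBall a (4 * ρ)) (Metric.closedBall a (4 * ρ)) :=
    fun x => mapsTo_of_inj (cj a hρ (TH h1 e₂ (fun k => th (x k))).toEquiv).injective (hid x)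
  refine continuous_family _ ?_ ?_
  · refine continuous_extM (X := ℕ → ℝ) (T := fun x =>
      (cj a hρ (TH h1 e₂ (fun k => th (x k))).toEquiv : E → E)) hK
      (isCompact_closedBall _ _) hid hmt ?_
    rw [continuous_iff_continuousAt]
    intro p
    exact (jet_fam (e₂ := e₂) hρ h1 p).continuousAt
  · exact jetM_extM (X := ℕ → ℝ) (T := fun x =>
      (cj a hρ (TH h1 e₂ (fun k => th (x k))).toEquiv : E → E)) hK
      (isCompact_closedBall _ _) hid hmt (jet_fam (e₂ := e₂) hρ h1) r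

theorem conj_of_l1 [CompactSpace M] {x y : ℕ → ℝ} (hxy : Summable fun n => |x n - y n|) :
    TopConj (Fam hρ hK h1 h2 h12 r x).map (Fam hρ hK h1 h2 h12 r y).map := by
  set τ : ℕ → ℝ := fun k => th (x k) with hτd
  set τ' : ℕ → ℝ := fun k => th (y k) with hτd'
  have hτ : ∀ k, |τ k| ≤ 1 / 2 := fun k => th_abs _
  have hτ' : ∀ k, |τ' k| ≤ 1 / 2 := fun k => th_abs _
  have hd : ∀ k, |τ' k - τ k| ≤ 1 / 2 := fun k => th_sub _ _
  have hs : Summable fun k => |τ' k - τ k| := by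
    refine Summable.of_nonneg_of_le (fun k => abs_nonneg _) (fun k => ?_) hxy
    rw [abs_sub_comm]
    exact th_lip _ _
  let D : E ≃ E := HE (e₂ := e₂) h1 h12 hd
  have hDid : ∀ z, z ∉ Metric.closedBall (0 : E) 4 → D z = z := fun z hz => hh_id hz
  have hid := cj_id a hρ hDid
  have hmt := mapsTo_of_inj (cj a hρ D).injective hid
  have hDc : Continuous D := hh_cont e₁ e₂ hs
  have hcc : Continuous (cj a hρ D) :=
    (AE a hρ).continuous.comp (hDc.comp (AE a hρ).symm.continuous)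
  have hc : Continuous (extE (χ := chartAt E m₀) hK (cj a hρ D) hid) :=
    continuous_extM' hK (isCompact_closedBall _ _) hid hmt hcc
  refine ⟨Continuous.homeoOfEquivCompactToT2 hc, fun m => ?_⟩
  have hidx := cj_id a hρ (TH_id h1 h2 h12 hτ)
  have hmtx := mapsTo_of_inj (cj a hρ (TH h1 e₂ τ).toEquiv).injective hidx
  show extM (chartAt E m₀) (cj a hρ D) (extM (chartAt E m₀) (cj a hρ (TH h1 e₂ τ).toEquiv) m) =
    extM (chartAt E m₀) (cj a hρ (TH h1 e₂ τ').toEquiv) (extM (chartAt E m₀) (cj a hρ D) m)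
  rw [extM_comp hK hidx hmtx, extM_comp hK hid hmt]
  congr 1
  funext w
  simp only [Function.comp]
  rw [cj_apply a hρ D w, cj_apply a hρ (TH h1 e₂ τ).toEquiv w, cj_AE, cj_AE]
  congr 1
  exact hh_conj h1 h2 h12 hτ hτ' hd ((AE a hρ).symm w)

theorem not_conj_gen [CompactSpace M] {x y : ℕ → ℝ}
    (hg0 : ∀ N : ℕ, ∃ k, N ≤ k ∧ |th (x k)| ≤ 1 / ((N : ℝ) + 1) ∧
        |th (y k) - 0| ≤ 1 / ((N : ℝ) + 1))
    (hg1 : ∀ N : ℕ, ∃ k, N ≤ k ∧ |th (x k)| ≤ 1 / ((N : ℝ) + 1) ∧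
        |th (y k) - 1 / 2| ≤ 1 / ((N : ℝ) + 1)) :
    ¬ TopConj (Fam hρ hK h1 h2 h12 r x).map (Fam hρ hK h1 h2 h12 r y).map := by
  have h10 : e₁ ≠ 0 := by
    intro h
    rw [h, norm_zero] at h1
    exact zero_ne_one h1
  have _ : Nontrivial E := ⟨e₁, 0, h10⟩
  exact not_conj (τ := fun k => th (x k)) (τ' := fun k => th (y k)) (EB_psi hρ hK) h1 h2 h12
    (infinite_nhd (E := E)) (fun k => th_abs _) (fun k => th_abs _)
    (isExt_psi hρ hK (TH_id h1 h2 h12 (fun k => th_abs (x k))))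
    (isExt_psi hρ hK (TH_id h1 h2 h12 (fun k => th_abs (y k)))) hg0 hg1

end

universe u

theorem main [CompactSpace M] [T2Space M] [Nonempty M] {e₁ : E} (h1 : ‖e₁‖ = 1) {e₂ : E}
    (h2 : ‖e₂‖ = 1) (h12 : ⟪e₂, e₁⟫_ℝ = 0) (r : ℕ∞) (Y : Type u) [MeasurableSpace Y]
    [StandardBorelSpace Y] [MulAction (Equiv.Perm ℕ) Y]
    (hact : @Measurable _ _ (Pool.Agent.H468R2.KA.permMS.prod inferInstance) _
      (fun p : Equiv.Perm ℕ × Y => p.1 • p.2)) (φ : DiffR 𝓘(ℝ, E) M r → Y)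
    (hφ : @Measurable _ _ (@borel _ (crTopology 𝓘(ℝ, E) M r)) _ φ)
    (hred : ∀ f g : DiffR 𝓘(ℝ, E) M r, TopConj f.map g.map ↔
      ∃ π : Equiv.Perm ℕ, π • φ f = φ g) : False := by
  obtain ⟨m₀⟩ := ‹Nonempty M›
  obtain ⟨ρ, hρ, hK⟩ : ∃ ρ : ℝ, 0 < ρ ∧
      Metric.closedBall ((chartAt E m₀) m₀) (4 * ρ) ⊆ (chartAt E m₀).target := by
    have h3 := (chartAt E m₀).open_target.mem_nhds
      ((chartAt E m₀).map_source (mem_chart_source E m₀))
    obtain ⟨ε, hε, hb⟩ := Metric.nhds_basis_closedBall.mem_iff.1 h3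
    refine ⟨ε / 4, by positivity, ?_⟩
    have : 4 * (ε / 4) = ε := by ring
    rw [this]
    exact hb
  have hF := continuous_Fam (a := (chartAt E m₀) m₀) hρ hK h1 h2 h12 r
  have hFm : @Measurable _ _ _ (@borel _ (crTopology 𝓘(ℝ, E) M r))
      (Fam hρ hK h1 h2 h12 r) := by
    let _ := crTopology 𝓘(ℝ, E) M r
    let _ : MeasurableSpace (DiffR 𝓘(ℝ, E) M r) := borel _
    have _ : BorelSpace (DiffR 𝓘(ℝ, E) M r) := ⟨rfl⟩
    exact hF.measurable
  have hf : Measurable (fun x => φ (Fam hρ hK h1 h2 h12 r x)) := by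
    let _ : MeasurableSpace (DiffR 𝓘(ℝ, E) M r) := @borel _ (crTopology 𝓘(ℝ, E) M r)
    exact hφ.comp hFm
  have t_erg : Pool.Agent.H468R2.MA.T_ERG :=
    Pool.Agent.H468R2.MA.t_T_ERG (Pool.Agent.H468R2.MA.t_T_C Pool.Agent.H468R2.MA.t_T_SC
      (Pool.Agent.H468R2.MA.t_T_LOC Pool.Agent.H468R2.MA.t_T_SC
        (Pool.Agent.H468R2.MA.t_T_LOC1 Pool.Agent.H468R2.MA.t_T_SC)))
      Pool.Agent.H468R2.MA.t_T_CH
  have hperm : Pool.Agent.H468R2.KA.F_perm.{u} :=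
    Pool.Agent.H468R2.KA.t_F_perm Pool.Agent.H468R2.KA.t_F_top
      (Pool.Agent.H468R2.KA.t_F_vt Pool.Agent.H468R2.KA.t_F_top) t_erg
  obtain ⟨C, hC, hCo⟩ := hperm Y hact _ hf (fun x y hxy =>
    (hred _ _).1 (conj_of_l1 hρ hK h1 h2 h12 r hxy))
  obtain ⟨x, hx, y, hy, hg0, hg1⟩ := exists_gen hC
  exact not_conj_gen hρ hK h1 h2 h12 r hg0 hg1 ((hred _ _).2 (hCo x hx y hy))

end Main

end Pool.Agent.W922.TB
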